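import Pool.Agent.R794.UQ.Clone

namespace Pool.Agent.R794.UQ

/-- The encoding of a sequence of monotone operations of arity `k + 1` in one monotone operation
of arity `k + 3`. -/
noncomputable def encode {k : ℕ} (f : ℕ → Op ℚ k) : Op ℚ (k + 2) := fun x =>
  let a := (⌊x (Fin.last (k + 2))⌋).toNat
  let b := (-⌊x (Fin.castSucc (Fin.last (k + 1)))⌋).toNat
  let y : Fin (k + 1) → ℚ := fun i => x (Fin.castSucc (Fin.castSucc i))
  if h : b ≤ a then (Finset.Icc b a).sup' (Finset.nonempty_Icc.2 h) (fun n => f n y)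
  else (Finset.Icc a b).inf' (Finset.nonempty_Icc.2 (le_of_not_ge h)) (fun n => f n y)

lemma encode_mem {k : ℕ} (f : ℕ → Op ℚ k) (hf : ∀ n, f n ∈ Pol leRel k) :
    encode f ∈ Pol leRel (k + 2) := by
  intro j x x' hx
  change ∀ i, x i ≤ x' i at hx
  change encode f x ≤ encode f x'
  unfold encode
  simp only
  set a := (⌊x (Fin.last (k + 2))⌋).toNat
  set a' := (⌊x' (Fin.last (k + 2))⌋).toNat
  set b := (-⌊x (Fin.castSucc (Fin.last (k + 1)))⌋).toNat
  set b' := (-⌊x' (Fin.castSucc (Fin.last (k + 1)))⌋).toNat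
  have ha : a ≤ a' := Int.toNat_le_toNat (Int.floor_le_floor (hx _))
  have hb : b' ≤ b := Int.toNat_le_toNat (neg_le_neg (Int.floor_le_floor (hx _)))
  set y : Fin (k + 1) → ℚ := fun i => x (Fin.castSucc (Fin.castSucc i))
  set y' : Fin (k + 1) → ℚ := fun i => x' (Fin.castSucc (Fin.castSucc i))
  have hy : ∀ n, f n y ≤ f n y' := fun n => hf n () y y' (fun i => hx _)
  by_cases h : b ≤ a
  · have h' : b' ≤ a' := hb.trans (h.trans ha)
    rw [dif_pos h, dif_pos h']
    refine Finset.sup'_le _ _ fun n hn => (hy n).trans ?_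
    rw [Finset.mem_Icc] at hn
    exact Finset.le_sup' (fun n => f n y') (Finset.mem_Icc.2 ⟨hb.trans hn.1, hn.2.trans ha⟩)
  · rw [dif_neg h]
    by_cases h' : b' ≤ a'
    · rw [dif_pos h']
      have m1 : max a b' ∈ Finset.Icc a b :=
        Finset.mem_Icc.2 ⟨le_max_left _ _, max_le (le_of_not_ge h) hb⟩
      have m2 : max a b' ∈ Finset.Icc b' a' :=
        Finset.mem_Icc.2 ⟨le_max_right _ _, max_le ha h'⟩
      exact (Finset.inf'_le (fun n => f n y) m1).trans
        ((hy _).trans (Finset.le_sup' (fun n => f n y') m2))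
    · rw [dif_neg h']
      refine Finset.le_inf' _ _ fun n hn => ?_
      rw [Finset.mem_Icc] at hn
      refine (Finset.inf'_le (fun n => f n y)
        (Finset.mem_Icc.2 ⟨ha.trans hn.1, hn.2.trans hb⟩)).trans (hy n)

lemma encode_eq {k : ℕ} (f : ℕ → Op ℚ k) (n : ℕ) (x : Fin (k + 3) → ℚ)
    (h1 : x (Fin.last (k + 2)) = n) (h2 : x (Fin.castSucc (Fin.last (k + 1))) = -(n : ℚ)) :
    encode f x = f n (fun i => x (Fin.castSucc (Fin.castSucc i))) := by
  unfold encode
  have e1 : (⌊x (Fin.last (k + 2))⌋).toNat = n := by rw [h1]; simp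
  have e2 : (-⌊x (Fin.castSucc (Fin.last (k + 1)))⌋).toNat = n := by
    rw [h2]
    have : (-(n : ℚ)) = (((-(n : ℤ)) : ℤ) : ℚ) := by push_cast; ring
    rw [this, Int.floor_intCast]; simp
  simp only [e1, e2, le_refl, dite_true]
  simp

/-- the constant `0` -/
def cst : Op ℚ 0 := fun _ => 0
/-- `x ↦ x + 1` -/
def suc : Op ℚ 0 := fun x => x 0 + 1
/-- `x ↦ x - 1` -/
def prd : Op ℚ 0 := fun x => x 0 - 1

lemma cst_mem : cst ∈ Pol leRel 0 := fun _ _ _ _ => le_refl (0 : ℚ)
lemma suc_mem : suc ∈ Pol leRel 0 := fun _ x y h => by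
  change x 0 + 1 ≤ y 0 + 1
  have : x 0 ≤ y 0 := h 0
  linarith
lemma prd_mem : prd ∈ Pol leRel 0 := fun _ x y h => by
  change x 0 - 1 ≤ y 0 - 1
  have : x 0 ≤ y 0 := h 0
  linarith

/-- Constants `c` of arity `k + 1`. -/
def cstk (k : ℕ) (c : ℚ) : Op ℚ k := fun _ => c

/-- the finite set used for the encoding -/
noncomputable def encList {k : ℕ} (f : ℕ → Op ℚ k) : List (Σ n, Op ℚ n) :=
  [⟨k + 2, encode f⟩, ⟨0, cst⟩, ⟨0, suc⟩, ⟨0, prd⟩]

lemma sub_encList {k : ℕ} (f : ℕ → Op ℚ k) (hf : ∀ n, f n ∈ Pol leRel k) :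
    Sub (ofList (encList f)) (Pol leRel) := by
  intro n g hg
  change (⟨n, g⟩ : Σ n, Op ℚ n) ∈ encList f at hg
  simp only [encList, List.mem_cons, List.not_mem_nil, or_false] at hg
  rcases hg with h | h | h | h
  · cases h; exact encode_mem f hf
  · cases h; exact cst_mem
  · cases h; exact suc_mem
  · cases h; exact prd_mem

lemma cstk_mem_lvl {L : Fam ℚ} (hc : cst ∈ L 0) (hs : suc ∈ L 0) (hp : prd ∈ L 0) (k n : ℕ) :
    cstk k n ∈ lvl L k (n + 1) ∧ cstk k (-(n : ℚ)) ∈ lvl L k (n + 1) := by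
  induction n with
  | zero =>
    have : cstk k ((0 : ℕ) : ℚ) ∈ lvl L k 1 :=
      Or.inl ⟨0, cst, fun _ => proj 0, hc, fun _ => ⟨0, rfl⟩, by funext x; simp [cstk, cmp, cst]⟩
    refine ⟨this, ?_⟩
    have e : (-((0 : ℕ) : ℚ)) = ((0 : ℕ) : ℚ) := by simp
    rw [e]; exact this
  | succ n ih =>
    refine ⟨Or.inl ⟨0, suc, fun _ => cstk k n, hs, fun _ => ih.1, ?_⟩,
      Or.inl ⟨0, prd, fun _ => cstk k (-(n : ℚ)), hp, fun _ => ih.2, ?_⟩⟩
    · funext x; simp [cstk, cmp, suc]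
    · funext x; simp only [cstk, cmp, prd]; push_cast; ring

lemma mem_lvl_encList {k : ℕ} (f : ℕ → Op ℚ k) (n : ℕ) :
    f n ∈ lvl (ofList (encList f)) k (n + 2) := by
  have hc : cst ∈ ofList (encList f) 0 := by
    change (⟨0, cst⟩ : Σ n, Op ℚ n) ∈ encList f
    simp [encList]
  have hs : suc ∈ ofList (encList f) 0 := by
    change (⟨0, suc⟩ : Σ n, Op ℚ n) ∈ encList f
    simp [encList]
  have hp : prd ∈ ofList (encList f) 0 := by
    change (⟨0, prd⟩ : Σ n, Op ℚ n) ∈ encList f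
    simp [encList]
  have he : encode f ∈ ofList (encList f) (k + 2) := by
    change (⟨k + 2, encode f⟩ : Σ n, Op ℚ n) ∈ encList f
    simp [encList]
  have h := cstk_mem_lvl hc hs hp k n
  refine Or.inl ⟨k + 2, encode f,
    Fin.lastCases (cstk k n) (Fin.lastCases (cstk k (-(n : ℚ))) (fun i => proj i)), he, ?_, ?_⟩
  · intro j
    refine Fin.lastCases ?_ (fun j => ?_) j
    · simp only [Fin.lastCases_last]; exact h.1
    · simp only [Fin.lastCases_castSucc]
      refine Fin.lastCases ?_ (fun j => ?_) j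
      · simp only [Fin.lastCases_last]; exact h.2
      · simp only [Fin.lastCases_castSucc]
        exact lvl_mono _ k (Nat.zero_le _) ⟨j, rfl⟩
  · funext x
    simp only [cmp]
    rw [encode_eq f n]
    · congr 1
      funext i
      simp [proj]
    · simp [cstk]
    · simp [cstk]

/-- `Pol (ℚ, ≤)` has the Bergman property. -/
theorem bergman_le : Bergman (Pol leRel) :=
  bergman_of_encoding fun _ f hf =>
    ⟨encList f, 2, sub_encList f hf, fun n => mem_lvl_encList f n⟩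

end Pool.Agent.R794.UQ
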