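import Pool.Agent.R794.UQ.Enc
import Pool.Agent.R794.UQ.Order

namespace Pool.Agent.R794.UQ

section
variable {X : Type*} {d : X → X → ℚ}

lemma iter_mem_lvl {L : Fam X} {k : ℕ} {τ : X → X} (hτ : un τ ∈ L 0) {e : ℕ} {f : Op X k}
    (hf : f ∈ lvl L k e) (n : ℕ) : (fun x => τ^[n] (f x)) ∈ lvl L k (e + n) := by
  induction n with
  | zero => exact hf
  | succ n ih =>
    refine Or.inl ⟨0, un τ, fun _ => fun x => τ^[n] (f x), hτ, fun _ => ih, ?_⟩
    funext x
    simp only [cmp, un, Function.iterate_succ_apply']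

/-- `Pol` of the rational Urysohn sphere has the Bergman property. -/
theorem bergman_sphere (hX : IsUrysohnSphere d) : Bergman (Pol (metricRel d)) := by
  have c := cap_sphere
  have hpos : ∀ x : ℚ, 0 < x → 0 < min 1 x := fun x hx => lt_min (by norm_num) hx
  have hm := hX.metric
  obtain ⟨x0⟩ := IsUrysohn.nonempty hX c
  obtain ⟨w0, τ, hw0, hτ, henc⟩ := IsUrysohn.encode hX c hpos x0
  refine bergman_of_encoding fun k f hf => ?_
  obtain ⟨u, hu, ρ, hρ, hρu⟩ := IsUrysohn.retract hX c k
  obtain ⟨F, hF, hFg⟩ := henc (fun n x => f n (fun i => ρ i x))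
    (fun n => nonExp_of_mem hm (hf n) hρ) (fun n => n) strictMono_id (by
      intro n m hnm
      have h1 : d (f n (fun i => ρ i x0)) (f m (fun i => ρ i x0)) ≤ 1 := hX.range _ _
      have h2 : (n : ℚ) + 1 ≤ m := by exact_mod_cast hnm
      linarith)
  refine ⟨[⟨0, un F⟩, ⟨0, un τ⟩, ⟨0, un w0⟩, ⟨k, u⟩], 3, ?_, fun n => ?_⟩
  · intro n g hg
    change (⟨n, g⟩ : Σ n, Op X n) ∈
      ([⟨0, un F⟩, ⟨0, un τ⟩, ⟨0, un w0⟩, ⟨k, u⟩] : List (Σ n, Op X n)) at hg
    simp only [List.mem_cons, List.not_mem_nil, or_false] at hg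
    rcases hg with h | h | h | h
    · cases h; exact un_mem hF
    · cases h; exact un_mem hτ
    · cases h; exact un_mem hw0
    · cases h; exact hu
  · set L : List (Σ n, Op X n) := [⟨0, un F⟩, ⟨0, un τ⟩, ⟨0, un w0⟩, ⟨k, u⟩] with hL
    have m1 : un F ∈ ofList L 0 := by
      change (⟨0, un F⟩ : Σ n, Op X n) ∈ L
      simp [hL]
    have m2 : un τ ∈ ofList L 0 := by
      change (⟨0, un τ⟩ : Σ n, Op X n) ∈ L
      simp [hL]
    have m3 : un w0 ∈ ofList L 0 := by
      change (⟨0, un w0⟩ : Σ n, Op X n) ∈ L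
      simp [hL]
    have m4 : u ∈ ofList L k := by
      change (⟨k, u⟩ : Σ n, Op X n) ∈ L
      simp [hL]
    have l1 : u ∈ lvl (ofList L) k 1 := mem_lvl_one m4
    have l2 : (fun x => w0 (u x)) ∈ lvl (ofList L) k 2 :=
      Or.inl ⟨0, un w0, fun _ => u, m3, fun _ => l1, rfl⟩
    have l3 := iter_mem_lvl m2 l2 n
    refine Or.inl ⟨0, un F, fun _ => _, m1, fun _ => (lvl_mono _ k (by omega) l3 :
      _ ∈ lvl (ofList L) k (n + 2)), ?_⟩
    funext x
    simp only [cmp, un]
    rw [hFg]
    congr 1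
    funext i
    exact (hρu x i).symm

/-- Points at prescribed distances. -/
lemma exists_dist (hX : IsUrysohnSpace d) (x0 : X) (r : ℚ) (hr : 0 ≤ r) :
    ∃ y, d y x0 = r := by
  obtain ⟨y, hy⟩ := IsUrysohn.ext' hX cap_univ {()} (fun _ => x0) (fun _ => r)
    (fun _ _ => trivial)
    (fun _ _ _ _ => by rw [hX.metric.self]; linarith)
    (fun _ _ _ _ => by rw [hX.metric.self]; linarith)
  exact ⟨y, hy () (Finset.mem_singleton_self _)⟩

/-- Intermediate points. -/
lemma exists_between (hX : IsUrysohnSpace d) (x y : X) (m : ℕ) (h : d x y ≤ (m + 1 : ℕ)) :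
    ∃ z, d z x ≤ 1 ∧ d z y ≤ m := by
  have hm := hX.metric
  obtain ⟨z, hz⟩ := IsUrysohn.hyper hX cap_univ (Finset.univ : Finset Bool)
    (fun b => if b then x else y) (fun b => if b then 1 else (m : ℚ)) (by
      rintro (_ | _) - (_ | _) - <;> simp only [if_true, Bool.false_eq_true, if_false]
      · rw [hm.self]; positivity
      · rw [hm.symm]; push_cast at h; linarith
      · push_cast at h; linarith
      · rw [hm.self]; norm_num)
  exact ⟨z, by simpa using hz true (Finset.mem_univ _), by simpa using hz false (Finset.mem_univ _)⟩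

/-- Operations moving the base point by at most one. -/
def slow (d : X → X → ℚ) (x0 : X) : Fam X := fun k =>
  {f | f ∈ Pol (metricRel d) k ∧ d x0 (f fun _ => x0) ≤ 1}

lemma lvl_slow (hm : IsRatMetric d) (x0 : X) (k n : ℕ) :
    lvl (slow d x0) k n ⊆ {f | f ∈ Pol (metricRel d) k ∧ d x0 (f fun _ => x0) ≤ n} := by
  induction n with
  | zero =>
    rintro f ⟨i, rfl⟩
    refine ⟨(isClone_Pol _).proj_mem _ _, ?_⟩
    simp only [proj, hm.self]; simp
  | succ n ih =>
    rintro f (⟨l, g, t, hg, ht, rfl⟩ | hf)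
    · refine ⟨(isClone_Pol _).cmp_mem _ _ _ _ hg.1 fun j => (ih (ht j)).1, ?_⟩
      simp only [cmp]
      have h1 := hm.tri x0 (g fun _ => x0) (g fun i => t i fun _ => x0)
      have h2 := hg.2
      have h3 : d (g fun _ => x0) (g fun i => t i fun _ => x0) ≤ n :=
        hg.1 ⟨n, by positivity⟩ _ _ fun i => (ih (ht i)).2
      push_cast
      linarith
    · refine ⟨(ih hf).1, (ih hf).2.trans ?_⟩
      push_cast; linarith

lemma slow_generates (hX : IsUrysohnSpace d) (x0 : X) :
    Generates (slow d x0) (Pol (metricRel d)) := by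
  have hm := hX.metric
  refine ⟨isClone_Pol _, fun n f hf => hf.1, fun G hG hs => ?_⟩
  have key : ∀ (m : ℕ) (k : ℕ) (f : Op X k), f ∈ Pol (metricRel d) k →
      d x0 (f fun _ => x0) ≤ (m + 1 : ℕ) → f ∈ G k := by
    intro m
    induction m with
    | zero =>
      intro k f hf h
      exact hs k ⟨hf, by simpa using h⟩
    | succ m ih =>
      intro k f hf h
      obtain ⟨z, hz1, hz2⟩ := exists_between hX x0 (f fun _ => x0) (m + 1) h
      obtain ⟨φ, hφ, hφ'⟩ := hX.homogeneous 1 (fun _ => x0) (fun _ => z) (fun _ _ => by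
        rw [hm.self, hm.self])
      have e1 : φ x0 = z := hφ' 0
      have hφG : un φ ∈ G 0 := hs 0 ⟨un_mem fun x y => (hφ x y).le, by
        simp only [un, e1]; rw [hm.symm]; exact hz1⟩
      have hφs : NonExp d φ.symm := fun x y => by
        rw [← hφ (φ.symm x), φ.apply_symm_apply, φ.apply_symm_apply]
      have h2 : cmp (un φ.symm) (fun _ => f) ∈ G k := by
        refine ih k _ ((isClone_Pol _).cmp_mem _ _ _ _ (un_mem hφs) fun _ => hf) ?_
        simp only [cmp, un]
        rw [← hφ, e1, φ.apply_symm_apply]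
        exact hz2
      have h3 := hG.cmp_mem _ _ _ _ hφG (fun _ : Fin 1 => h2)
      have e : cmp (un φ) (fun _ : Fin 1 => cmp (un φ.symm) (fun _ => f)) = f := by
        funext x
        simp [cmp, un]
      rw [e] at h3
      exact h3
  intro k f hf
  refine key ⌈d x0 (f fun _ => x0)⌉₊ k f hf ?_
  have := Nat.le_ceil (d x0 (f fun _ => x0))
  push_cast
  linarith

/-- `Pol` of the rational Urysohn space does not have the Bergman property; in fact no arity is
covered by terms of bounded depth over one fixed generating set. -/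
theorem not_bergman_space (hX : IsUrysohnSpace d) :
    ∃ H, Generates H (Pol (metricRel d)) ∧ ∀ k n, lvl H k n ≠ Pol (metricRel d) k := by
  have hm := hX.metric
  obtain ⟨x0⟩ := IsUrysohn.nonempty hX cap_univ
  refine ⟨slow d x0, slow_generates hX x0, fun k n h => ?_⟩
  obtain ⟨y, hy⟩ := exists_dist hX x0 (n + 1) (by positivity)
  have h1 : (fun _ => y : Op X k) ∈ Pol (metricRel d) k := fun q a b _ => by
    change d y y ≤ q
    rw [hm.self]; exact q.2
  rw [← h] at h1
  have := (lvl_slow hm x0 k n h1).2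
  simp only at this
  rw [hm.symm, hy] at this
  linarith

end

end Pool.Agent.R794.UQ
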