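import Pool.Agent.R794.UQ.Defs

namespace Pool.Agent.R794.UQ

variable {A : Type*}

lemma lvl_succ_subset (U : Fam A) (k i : ℕ) : lvl U k i ⊆ lvl U k (i + 1) := by
  intro f hf
  exact Or.inr hf

lemma lvl_mono (U : Fam A) (k : ℕ) : Monotone (lvl U k) :=
  monotone_nat_of_le_succ (lvl_succ_subset U k)

lemma lvl_subset_of_clone {U F : Fam A} (hF : IsClone F) (h : Sub U F) (k i : ℕ) :
    lvl U k i ⊆ F k := by
  induction i with
  | zero => rintro f ⟨j, rfl⟩; exact hF.proj_mem _ _
  | succ i ih =>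
    rintro f (⟨n, g, t, hg, ht, rfl⟩ | hf)
    · exact hF.cmp_mem _ _ _ _ (h _ hg) (fun j => ih (ht j))
    · exact ih hf

/-- Composition adds depths. -/
lemma lvl_cmp {U : Fam A} {n m : ℕ} {d e : ℕ} {f : Op A n} {g : Fin (n + 1) → Op A m}
    (hf : f ∈ lvl U n d) (hg : ∀ i, g i ∈ lvl U m e) : cmp f g ∈ lvl U m (d + e) := by
  induction d generalizing f with
  | zero =>
    obtain ⟨j, rfl⟩ := hf
    have : cmp (proj j : Op A n) g = g j := rfl
    rw [this, zero_add]; exact hg j
  | succ d ih =>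
    rcases hf with ⟨l, t, s, ht, hs, rfl⟩ | hf
    · have : d + 1 + e = (d + e) + 1 := by ring
      rw [this]
      exact Or.inl ⟨l, t, fun j => cmp (s j) g, ht, fun j => ih (hs j), rfl⟩
    · have := ih hf
      exact lvl_mono U m (by omega) this

/-- The union of the levels is a clone. -/
lemma isClone_iUnion_lvl (U : Fam A) : IsClone (fun k => ⋃ i, lvl U k i) where
  proj_mem n i := Set.mem_iUnion.2 ⟨0, i, rfl⟩
  cmp_mem n m f g hf hg := by
    obtain ⟨d, hd⟩ := Set.mem_iUnion.1 hf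
    choose e he using fun i => Set.mem_iUnion.1 (hg i)
    refine Set.mem_iUnion.2 ⟨d + Finset.univ.sup e, lvl_cmp hd fun i => ?_⟩
    exact lvl_mono U m (Finset.le_sup (Finset.mem_univ i)) (he i)

lemma mem_lvl_one {U : Fam A} {n : ℕ} {f : Op A n} (hf : f ∈ U n) : f ∈ lvl U n 1 :=
  Or.inl ⟨n, f, fun i => proj i, hf, fun i => ⟨i, rfl⟩, rfl⟩

lemma exists_lvl_of_generates {H F : Fam A} (h : Generates H F) {k : ℕ} {f : Op A k}
    (hf : f ∈ F k) : ∃ i, f ∈ lvl H k i := by
  have := h.2.2 _ (isClone_iUnion_lvl H)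
    (fun n f hf => Set.mem_iUnion.2 ⟨1, mem_lvl_one hf⟩) k hf
  exact Set.mem_iUnion.1 this

/-- Terms over `T` whose members have depth `≤ d` over `H`. -/
lemma lvl_trans {T H : Fam A} {d : ℕ} (h : ∀ n, T n ⊆ lvl H n d) (k i : ℕ) :
    lvl T k i ⊆ lvl H k (d * i) := by
  induction i with
  | zero => simp only [mul_zero]; exact fun f hf => hf
  | succ i ih =>
    rintro f (⟨n, g, t, hg, ht, rfl⟩ | hf)
    · have := lvl_cmp (h _ hg) (fun j => ih (ht j))
      have e : d + d * i = d * (i + 1) := by ring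
      rwa [e] at this
    · exact lvl_mono H k (Nat.mul_le_mul_left d (Nat.le_succ i)) (ih hf)

/-- A finite set of operations. -/
def ofList (L : List (Σ n, Op A n)) : Fam A := fun n => {f | (⟨n, f⟩ : Σ n, Op A n) ∈ L}

/-- If every sequence of operations of a fixed arity has small depth over a finite set, then the
clone has the Bergman property. -/
theorem bergman_of_encoding {F : Fam A}
    (h : ∀ (k : ℕ) (f : ℕ → Op A k), (∀ n, f n ∈ F k) →
      ∃ (L : List (Σ n, Op A n)) (c : ℕ), Sub (ofList L) F ∧ ∀ n, f n ∈ lvl (ofList L) k (n + c)) :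
    Bergman F := by
  intro H hH k
  by_contra hcon
  push Not at hcon
  have h1 : ∀ n, ∃ f ∈ F k, f ∉ lvl H k n := by
    intro n
    by_contra hc
    push Not at hc
    exact hcon n (Set.Subset.antisymm (lvl_subset_of_clone hH.1 hH.2.1 k n) hc)
  choose f hfF hf using fun n => h1 (n * (2 * n))
  obtain ⟨L, c, hL, hd⟩ := h k f hfF
  have h2 : ∀ p ∈ L, ∃ i, p.2 ∈ lvl H p.1 i := fun p hp =>
    exists_lvl_of_generates hH (hL p.1 hp)
  have h3 : ∃ d, ∀ p ∈ L, p.2 ∈ lvl H p.1 d := by
    clear hd hL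
    induction L with
    | nil => exact ⟨0, by simp⟩
    | cons p L ih =>
      obtain ⟨d, hd⟩ := ih (fun q hq => h2 q (List.mem_cons_of_mem _ hq))
      obtain ⟨i, hi⟩ := h2 p List.mem_cons_self
      refine ⟨max d i, fun q hq => ?_⟩
      rcases List.mem_cons.1 hq with rfl | hq
      · exact lvl_mono H _ (le_max_right _ _) hi
      · exact lvl_mono H _ (le_max_left _ _) (hd q hq)
  obtain ⟨d, hd'⟩ := h3
  have h4 : ∀ n, ofList L n ⊆ lvl H n d := fun n g hg => hd' ⟨n, g⟩ hg
  have h5 := lvl_trans h4 k (max c d + c) (hd (max c d))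
  refine hf (max c d) (lvl_mono H k ?_ h5)
  calc d * (max c d + c) ≤ max c d * (2 * max c d) := by
        apply Nat.mul_le_mul (le_max_right _ _)
        have := le_max_left c d
        omega
    _ = _ := rfl

lemma isClone_Pol {ι : Type*} (R : ι → A → A → Prop) : IsClone (Pol R) where
  proj_mem n i := fun j x y h => h i
  cmp_mem n m f g hf hg := fun j x y h => hf j _ _ (fun i => hg i j _ _ h)

/-- a unary operation -/
def un (g : A → A) : Op A 0 := fun x => g (x 0)

end Pool.Agent.R794.UQ
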