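import Pool.Agent.R794.UQ.CofDefs
import Pool.Agent.R794.UQ.Berg

namespace Pool.Agent.R794.UQ

open Cardinal

section general
variable {A : Type}

/-- the clone generated by a family -/
def gen (U : Fam A) : Fam A := fun k => ⋃ i, lvl U k i

lemma isClone_gen (U : Fam A) : IsClone (gen U) := isClone_iUnion_lvl U

lemma sub_gen (U : Fam A) : Sub U (gen U) := fun _ _ hf => Set.mem_iUnion.2 ⟨1, mem_lvl_one hf⟩

lemma gen_sub {U G : Fam A} (hG : IsClone G) (h : Sub U G) : Sub (gen U) G := by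
  intro k f hf
  obtain ⟨i, hi⟩ := Set.mem_iUnion.1 hf
  exact lvl_subset_of_clone hG h k i hi

lemma generates_of_sub_gen {U F : Fam A} (hF : IsClone F) (h : Sub U F) (h' : Sub F (gen U)) :
    Generates U F :=
  ⟨hF, h, fun _ hG hs n _ hf => gen_sub hG hs n (h' n hf)⟩

/-- A clone which is not finitely generated is the union of a chain of proper subclones. -/
lemma exists_chain {F : Fam A} (hF : IsClone F) (hfg : ¬ FinGen F) :
    ∃ c : Cardinal.{0}, ∃ G : c.ord.ToType → Fam A, ProperChain F G := by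
  classical
  let P : Set Cardinal.{0} := {c | ∃ H : Set (Σ n, Op A n), #H = c ∧ Generates (ofSet H) F}
  have hP : P.Nonempty := by
    refine ⟨_, {p | p.2 ∈ F p.1}, rfl, generates_of_sub_gen hF (fun n f hf => hf) ?_⟩
    intro n f hf
    exact sub_gen _ n hf
  obtain ⟨H, hHc, hH⟩ := csInf_mem hP
  set c := sInf P with hc
  have hinf : ℵ₀ ≤ c := by
    by_contra h
    push Not at h
    rw [← hHc] at h
    exact hfg ⟨H, Cardinal.lt_aleph0_iff_set_finite.1 h, hH⟩
  have hcard : #c.ord.ToType = #H := by rw [Cardinal.mk_ord_toType, hHc]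
  obtain ⟨e⟩ := Cardinal.eq.1 hcard
  refine ⟨c, fun i => gen (ofSet {p | ∃ j < i, (e j : Σ n, Op A n) = p}), ?_, ?_, ?_, ?_, ?_⟩
  · intro i; exact isClone_gen _
  · intro i
    refine gen_sub hF ?_
    rintro n f ⟨j, hj, hj'⟩
    have : (⟨n, f⟩ : Σ n, Op A n) ∈ H := by rw [← hj']; exact (e j).2
    exact hH.2.1 n this
  · intro i h
    have hg : Generates (ofSet {p | ∃ j < i, (e j : Σ n, Op A n) = p}) F := by
      refine generates_of_sub_gen hF ?_ h
      rintro n f ⟨j, hj, hj'⟩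
      have : (⟨n, f⟩ : Σ n, Op A n) ∈ H := by rw [← hj']; exact (e j).2
      exact hH.2.1 n this
    have h1 : c ≤ #{p : Σ n, Op A n | ∃ j < i, (e j : Σ n, Op A n) = p} :=
      csInf_le' ⟨_, rfl, hg⟩
    have h2 : #{p : Σ n, Op A n | ∃ j < i, (e j : Σ n, Op A n) = p} ≤ #(Set.Iio i) := by
      have : {p : Σ n, Op A n | ∃ j < i, (e j : Σ n, Op A n) = p} =
          (fun j => (e j : Σ n, Op A n)) '' Set.Iio i := by
        ext p; simp
      rw [this]
      exact Cardinal.mk_image_le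
    have h3 : #(Set.Iio i) < c := Cardinal.mk_Iio_ord_toType i
    exact absurd (h1.trans h2) (not_le.2 h3)
  · intro i j hij
    refine gen_sub (isClone_gen _) ?_
    rintro n f ⟨l, hl, hl'⟩
    exact sub_gen _ n ⟨l, hl.trans_le hij, hl'⟩
  · intro n f hf
    have hlim : ∀ i : c.ord.ToType, ∃ j, i < j := by
      have : NoMaxOrder c.ord.ToType := Cardinal.noMaxOrder hinf
      intro i; exact exists_gt i
    have hne : Nonempty c.ord.ToType := by
      rw [← Cardinal.mk_ne_zero_iff, Cardinal.mk_ord_toType]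
      intro h0
      rw [h0] at hinf
      exact absurd hinf (not_le.2 Cardinal.aleph0_pos)
    obtain ⟨i0⟩ := hne
    have hU : IsClone (fun n => ⋃ i, gen (ofSet {p | ∃ j < i, (e j : Σ n, Op A n) = p}) n) := by
      have hmono : ∀ i j, i ≤ j → Sub (gen (ofSet {p | ∃ l < i, (e l : Σ n, Op A n) = p}))
          (gen (ofSet {p | ∃ l < j, (e l : Σ n, Op A n) = p})) := by
        intro i j hij
        refine gen_sub (isClone_gen _) ?_
        rintro n f ⟨l, hl, hl'⟩
        exact sub_gen _ n ⟨l, hl.trans_le hij, hl'⟩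
      constructor
      · intro n i
        exact Set.mem_iUnion.2 ⟨i0, (isClone_gen _).proj_mem n i⟩
      · intro n m f g hf hg
        obtain ⟨i, hi⟩ := Set.mem_iUnion.1 hf
        choose l hl using fun i => Set.mem_iUnion.1 (hg i)
        refine Set.mem_iUnion.2 ⟨max i (Finset.univ.sup' ⟨0, Finset.mem_univ _⟩ l), ?_⟩
        refine (isClone_gen _).cmp_mem _ _ _ _ (hmono _ _ (le_max_left _ _) _ hi) fun j => ?_
        exact hmono _ _ ((Finset.le_sup' l (Finset.mem_univ j)).trans (le_max_right _ _)) _ (hl j)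
    have := hH.2.2 _ hU (by
      intro n f hf
      obtain ⟨j, hj⟩ := e.surjective ⟨_, hf⟩
      obtain ⟨i, hi⟩ := hlim j
      refine Set.mem_iUnion.2 ⟨i, sub_gen _ n ⟨j, hi, ?_⟩⟩
      rw [hj])
    exact Set.mem_iUnion.1 (this n hf)

/-- Criterion for uncountable cofinality. -/
lemma aleph0_lt_cf {F : Fam A} (hF : IsClone F) (hfg : ¬ FinGen F)
    (h : ∀ (ι : Type) [LinearOrder ι] [Countable ι] (G : ι → Fam A), ¬ ProperChain F G) :
    ℵ₀ < cf F := by
  have hne : {c : Cardinal.{0} | ∃ G : c.ord.ToType → Fam A, ProperChain F G}.Nonempty :=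
    exists_chain hF hfg
  obtain ⟨G, hG⟩ := csInf_mem hne
  by_contra hc
  push Not at hc
  have : Countable (sInf {c : Cardinal.{0} | ∃ G : c.ord.ToType → Fam A,
      ProperChain F G}).ord.ToType := by
    rw [← Cardinal.mk_le_aleph0_iff, Cardinal.mk_ord_toType]
    exact hc
  exact h _ G hG

lemma countable_lvl {H : Set (Σ n, Op A n)} (hH : H.Countable) (k i : ℕ) :
    (lvl (ofSet H) k i).Countable := by
  induction i with
  | zero =>
    have : lvl (ofSet H) k 0 = Set.range (fun i : Fin (k + 1) => (proj i : Op A k)) := by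
      ext f; simp [lvl, eq_comm]
    rw [this]; exact Set.countable_range _
  | succ i ih =>
    have : lvl (ofSet H) k (i + 1) ⊆ Set.range
        (fun p : Σ e : H, (Fin (e.1.1 + 1) → lvl (ofSet H) k i) =>
          cmp p.1.1.2 (fun j => (p.2 j : Op A k))) ∪ lvl (ofSet H) k i := by
      rintro f (⟨n, g, t, hg, ht, rfl⟩ | hf)
      · left
        exact ⟨⟨⟨⟨n, g⟩, hg⟩, fun j => ⟨t j, ht j⟩⟩, rfl⟩
      · right; exact hf
    refine Set.Countable.mono this (Set.Countable.union ?_ ih)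
    have h1 : Countable H := hH
    have h2 : Countable (lvl (ofSet H) k i) := ih
    exact Set.countable_range _

lemma countable_of_finGen {F : Fam A} (h : FinGen F) (k : ℕ) : (F k).Countable := by
  obtain ⟨H, hf, hg⟩ := h
  have h1 : F k ⊆ ⋃ i, lvl (ofSet H) k i := fun f hf => by
    obtain ⟨i, hi⟩ := exists_lvl_of_generates hg hf
    exact Set.mem_iUnion.2 ⟨i, hi⟩
  exact Set.Countable.mono h1 (Set.countable_iUnion fun i => countable_lvl hf.countable k i)

end general

section metric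
variable {S : Set ℚ} {T : ℚ → ℚ} {X : Type} {d : X → X → ℚ}

/-- `Pol` is not finitely generated. -/
lemma IsUrysohn.not_finGen (hX : IsUrysohn S d) (c : Cap S T) (h1 : (1 : ℚ) ∈ S) :
    ¬ FinGen (Pol (metricRel d)) := by
  intro hfg
  have hm := hX.metric
  have hcount := countable_of_finGen hfg 0
  obtain ⟨f, hf⟩ := hcount.exists_eq_range ⟨_, (isClone_Pol _).proj_mem 0 0⟩
  have hδ : IsRatMetric (fun n m : ℕ => if n = m then (0 : ℚ) else 1) := by
    constructor
    · intro x y
      by_cases h : x = y <;> simp [h]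
    · intro x y
      by_cases h : x = y
      · simp [h]
      · simp [h, Ne.symm h]
    · intro x y z
      split_ifs <;> first | (exfalso; omega) | norm_num
  have hδS : ∀ y y' : ℕ, (fun n m : ℕ => if n = m then (0 : ℚ) else 1) y y' ∈ S := by
    intro y y'
    change (if y = y' then (0 : ℚ) else 1) ∈ S
    split_ifs
    · exact c.zero_mem
    · exact h1
  obtain ⟨v, hv, hs⟩ := hX.nice c hδ hδS
  have hab : d (v 0) (v 1) = 1 := by rw [hv]; simp
  have hne : v 0 ≠ v 1 := fun h => by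
    rw [h, hm.self] at hab; norm_num at hab
  classical
  obtain ⟨g, hg, hg'⟩ := hX.extend c hδ hv hs
    (fun n => if f n (fun _ => v n) = v 0 then v 1 else v 0) (by
      intro y y'
      by_cases h : y = y'
      · subst h; simp [hm.self]
      · rw [if_neg h]
        split_ifs
        · rw [hm.self]; norm_num
        · rw [hm.symm, hab]
        · rw [hab]
        · rw [hm.self]; norm_num)
  have h2 : un g ∈ Pol (metricRel d) 0 := un_mem hg
  rw [hf] at h2
  obtain ⟨n, hn⟩ := h2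
  have h3 : f n (fun _ => v n) = g (v n) := by rw [hn]; rfl
  rw [hg'] at h3
  by_cases h4 : f n (fun _ => v n) = v 0
  · rw [if_pos h4] at h3
    exact hne (h4.symm.trans h3)
  · rw [if_neg h4] at h3
    exact h4 h3

/-- Iterating a binary coding operation. -/
lemma iterate_code {u2 : Op X 1} {ρ : Fin 2 → X → X} (hρ : ∀ i, NonExp d (ρ i))
    (hu : ∀ x i, ρ i (u2 x) = x i) (k : ℕ) :
    ∃ (u : Op X k) (σ : Fin (k + 1) → X → X), (∀ i, NonExp d (σ i)) ∧ (∀ x i, σ i (u x) = x i) ∧
      ∀ G : Fam X, IsClone G → u2 ∈ G 1 → u ∈ G k := by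
  induction k with
  | zero =>
    refine ⟨proj 0, fun _ x => x, fun _ => NonExp.id d, fun x i => ?_, fun G hG _ =>
      hG.proj_mem 0 0⟩
    rw [Fin.fin_one_eq_zero i]; rfl
  | succ k ih =>
    obtain ⟨u, σ, hσ, hσu, hG⟩ := ih
    refine ⟨fun x => u2 (Fin.cons (x 0) (fun _ => u (Fin.tail x))),
      Fin.cases (ρ 0) (fun i => σ i ∘ ρ 1), ?_, ?_, ?_⟩
    · intro i
      refine Fin.cases (hρ 0) (fun i => ?_) i
      exact (NonExp.comp (hσ i) (hρ 1) : NonExp d (σ i ∘ ρ 1))
    · intro x i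
      refine Fin.cases ?_ (fun i => ?_) i
      · exact hu _ 0
      · simp only [Fin.cases_succ, Function.comp]
        rw [hu]
        exact hσu _ i
    · intro G hG' hu2
      have h1 : cmp u (fun i => proj i.succ : Fin (k + 1) → Op X (k + 1)) ∈ G (k + 1) :=
        hG'.cmp_mem _ _ _ _ (hG G hG' hu2) fun i => hG'.proj_mem _ _
      have h2 := hG'.cmp_mem 1 (k + 1) u2
        (Fin.cons (proj 0) (fun _ => cmp u (fun i => proj i.succ))) hu2 (by
          intro i
          refine Fin.cases ?_ (fun i => ?_) i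
          · exact hG'.proj_mem _ _
          · exact h1)
      convert h2 using 1
      funext x
      simp only [cmp]
      congr 1
      funext i
      refine Fin.cases ?_ (fun i => ?_) i
      · rfl
      · rfl

lemma iter_mem {G : Fam X} (hG : IsClone G) {τ : X → X} (hτ : un τ ∈ G 0) {k : ℕ} {f : Op X k}
    (hf : f ∈ G k) (n : ℕ) : (fun x => τ^[n] (f x)) ∈ G k := by
  induction n with
  | zero => exact hf
  | succ n ih =>
    have := hG.cmp_mem _ _ _ _ hτ (fun _ : Fin 1 => ih)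
    convert this using 1
    funext x
    simp only [cmp, un, Function.iterate_succ_apply']

/-- No countable chain of proper subclones covers `Pol`. -/
lemma IsUrysohn.no_chain (hX : IsUrysohn S d) (c : Cap S T) (hpos : ∀ x, 0 < x → 0 < T x)
    (hgrow : ∀ z : ℕ → X, ∃ a : ℕ → ℕ, StrictMono a ∧
      ∀ n m, n < m → d (z n) (z m) ≤ (a m : ℚ) - a n)
    (ι : Type) [LinearOrder ι] [Countable ι] (G : ι → Fam X) :
    ¬ ProperChain (Pol (metricRel d)) G := by
  intro hG
  have hm := hX.metric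
  obtain ⟨x0⟩ := hX.nonempty c
  have hι : Nonempty ι := by
    obtain ⟨i, -⟩ := hG.union 0 (proj 0) ((isClone_Pol _).proj_mem 0 0)
    exact ⟨i⟩
  obtain ⟨e, he⟩ := exists_surjective_nat ι
  have h1 : ∀ i, ∃ (k : ℕ) (f : Op X k), f ∈ Pol (metricRel d) k ∧ f ∉ G i k := by
    intro i
    by_contra hcon
    push Not at hcon
    exact hG.proper i fun k f hf => hcon k f hf
  choose k f hf hf' using fun n => h1 (e n)
  obtain ⟨u2, hu2, ρ, hρ, hρu⟩ := hX.retract c 1
  have hit := fun n => iterate_code hρ hρu (k n)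
  choose u σ hσ hσu huG using hit
  obtain ⟨w0, τ, hw0, hτ, henc⟩ := hX.encode c hpos x0
  let g : ℕ → X → X := fun n x => f n (fun i => σ n i x)
  have hg : ∀ n, NonExp d (g n) := fun n => nonExp_of_mem hm (hf n) (hσ n)
  obtain ⟨a, ha, ha'⟩ := hgrow (fun n => g n x0)
  obtain ⟨F, hF, hFg⟩ := henc g hg a ha ha'
  obtain ⟨i1, hi1⟩ := hG.union 0 (un F) (un_mem hF)
  obtain ⟨i2, hi2⟩ := hG.union 0 (un τ) (un_mem hτ)
  obtain ⟨i3, hi3⟩ := hG.union 0 (un w0) (un_mem hw0)
  obtain ⟨i4, hi4⟩ := hG.union 1 u2 hu2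
  set i := max (max i1 i2) (max i3 i4) with hi
  have j1 := hG.mono i1 i ((le_max_left _ _).trans (le_max_left _ _)) 0 hi1
  have j2 := hG.mono i2 i ((le_max_right _ _).trans (le_max_left _ _)) 0 hi2
  have j3 := hG.mono i3 i ((le_max_left _ _).trans (le_max_right _ _)) 0 hi3
  have j4 := hG.mono i4 i ((le_max_right _ _).trans (le_max_right _ _)) 1 hi4
  obtain ⟨n, hn⟩ := he i
  apply hf' n
  rw [hn]
  have hGi := hG.clone i
  have l1 := huG n (G i) hGi j4
  have l2 := hGi.cmp_mem _ _ _ _ j3 (fun _ : Fin 1 => l1)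
  have l3 := iter_mem hGi j2 l2 (a n)
  have l4 := hGi.cmp_mem _ _ _ _ j1 (fun _ : Fin 1 => l3)
  convert l4 using 1
  funext x
  simp only [cmp, un]
  rw [hFg]
  simp only [g]
  congr 1
  funext i
  exact (hσu n x i).symm

/-- `cf (Pol 𝕌_ℚ) > ℵ₀`. -/
theorem cf_space (hX : IsUrysohnSpace d) : ℵ₀ < cf (Pol (metricRel d)) := by
  have hm := hX.metric
  refine aleph0_lt_cf (isClone_Pol _) (IsUrysohn.not_finGen hX cap_univ trivial) ?_
  intro ι _ _ G
  refine IsUrysohn.no_chain hX cap_univ (fun x hx => hx) (fun z => ?_) ι G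
  let b : ℕ → ℕ := fun n => ⌈d (z 0) (z n)⌉₊
  let s : ℕ → ℕ := fun n => ∑ i ∈ Finset.range (n + 1), b i
  let a : ℕ → ℕ := fun n => ∑ i ∈ Finset.range n, (2 * s (i + 1) + 1)
  have hmono : StrictMono a := strictMono_nat_of_lt_succ fun n => by
    simp only [a]
    rw [Finset.sum_range_succ]
    omega
  refine ⟨a, hmono, fun n m hnm => ?_⟩
  obtain ⟨l, rfl⟩ : ∃ l, m = l + 1 := ⟨m - 1, by omega⟩
  have h1 : a n ≤ a l := hmono.monotone (by omega)
  have h2 : a (l + 1) = a l + (2 * s (l + 1) + 1) := by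
    simp only [a]
    rw [Finset.sum_range_succ]
  have h3 : ∀ i ≤ l + 1, b i ≤ s (l + 1) := fun i hi =>
    Finset.single_le_sum (f := b) (fun _ _ => Nat.zero_le _) (Finset.mem_range.2 (by omega))
  have h4 := h3 n (by omega)
  have h5 := h3 (l + 1) le_rfl
  have h6 : d (z 0) (z n) ≤ b n := Nat.le_ceil _
  have h7 : d (z 0) (z (l + 1)) ≤ b (l + 1) := Nat.le_ceil _
  have h8 := hm.tri (z n) (z 0) (z (l + 1))
  rw [hm.symm (z n) (z 0)] at h8
  have h1' : (a n : ℚ) ≤ a l := by exact_mod_cast h1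
  have h2' : (a (l + 1) : ℚ) = a l + (2 * s (l + 1) + 1) := by exact_mod_cast h2
  have h4' : (b n : ℚ) ≤ s (l + 1) := by exact_mod_cast h4
  have h5' : (b (l + 1) : ℚ) ≤ s (l + 1) := by exact_mod_cast h5
  linarith

/-- `cf (Pol 𝕊_ℚ) > ℵ₀`. -/
theorem cf_sphere (hX : IsUrysohnSphere d) : ℵ₀ < cf (Pol (metricRel d)) := by
  refine aleph0_lt_cf (isClone_Pol _)
    (IsUrysohn.not_finGen hX cap_sphere (show (1 : ℚ) ≤ 1 from le_rfl)) ?_
  intro ι _ _ G
  refine IsUrysohn.no_chain hX cap_sphere (fun x hx => lt_min (by norm_num) hx)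
    (fun z => ⟨fun n => n, strictMono_id, fun n m hnm => ?_⟩) ι G
  have h1 : d (z n) (z m) ≤ 1 := hX.range _ _
  have h2 : (n : ℚ) + 1 ≤ m := by exact_mod_cast hnm
  linarith

end metric

end Pool.Agent.R794.UQ
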