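import Pool.Agent.R794.UQ.Defs

/-! # Cofinality of a clone -/

namespace Pool.Agent.R794.UQ

/-- The clone `F` is the union of the increasing family `G i` of proper subclones. -/
structure ProperChain {A ι : Type} [LinearOrder ι] (F : Fam A) (G : ι → Fam A) : Prop where
  clone : ∀ i, IsClone (G i)
  sub : ∀ i, Sub (G i) F
  proper : ∀ i, ¬ Sub F (G i)
  mono : ∀ i j, i ≤ j → Sub (G i) (G j)
  union : ∀ (n : ℕ) (f : Op A n), f ∈ F n → ∃ i, f ∈ G i n

/-- The family whose members are the elements of a set `H` of operations. -/
def ofSet {A : Type} (H : Set (Σ n, Op A n)) : Fam A := fun n => {f | (⟨n, f⟩ : Σ n, Op A n) ∈ H}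

/-- `F` is finitely generated. -/
def FinGen {A : Type} (F : Fam A) : Prop := ∃ H : Set (Σ n, Op A n), H.Finite ∧ Generates (ofSet H) F

/-- The cofinality of a clone: the least cardinal `c` such that `F` is the union of an increasing
chain, indexed by the ordinals below `c`, of proper subclones. -/
noncomputable def cf {A : Type} (F : Fam A) : Cardinal.{0} :=
  sInf {c : Cardinal.{0} | ∃ G : c.ord.ToType → Fam A, ProperChain F G}

/-- The part of `F` of arity `k + 1`. -/
def part {A : Type} (F : Fam A) (k : ℕ) : Fam A := fun n => {f | f ∈ F n ∧ n = k}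

end Pool.Agent.R794.UQ
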