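import Pool.Agent.R794.UQ.Cof

namespace Pool.Agent.R794.UQ

open Cardinal

/-- Chains indexed by the natural numbers. -/
lemma no_nat_chain {A : Type} {F : Fam A} (h : ℵ₀ < cf F) (G : ℕ → Fam A) : ¬ ProperChain F G := by
  classical
  intro hG
  have hn : ∀ i : (ℵ₀ : Cardinal.{0}).ord.ToType, ∃ n : ℕ,
      ((Ordinal.ToType.mk.symm i : Set.Iio (ℵ₀ : Cardinal.{0}).ord) : Ordinal) = n := by
    intro i
    have h1 := (Ordinal.ToType.mk.symm i).2
    rw [Set.mem_Iio] at h1
    exact Ordinal.lt_omega0.1 (lt_of_lt_of_eq h1 Cardinal.ord_aleph0)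
  choose r hr using hn
  have hrmono : ∀ i j, i ≤ j → r i ≤ r j := by
    intro i j hij
    have h1 : Ordinal.ToType.mk.symm i ≤ Ordinal.ToType.mk.symm j :=
      (OrderIso.le_iff_le _).2 hij
    have h2 : ((Ordinal.ToType.mk.symm i : Set.Iio (ℵ₀ : Cardinal.{0}).ord) : Ordinal) ≤
      ((Ordinal.ToType.mk.symm j : Set.Iio (ℵ₀ : Cardinal.{0}).ord) : Ordinal) := h1
    rw [hr, hr] at h2
    exact_mod_cast h2
  have hrsurj : ∀ n, ∃ i, r i = n := by
    intro n
    have hlt : ((n : ℕ) : Ordinal.{0}) < (ℵ₀ : Cardinal.{0}).ord := by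
      rw [Cardinal.ord_aleph0]; exact Ordinal.natCast_lt_omega0 n
    refine ⟨Ordinal.ToType.mk ⟨(n : Ordinal), hlt⟩, ?_⟩
    have := hr (Ordinal.ToType.mk ⟨(n : Ordinal), hlt⟩)
    rw [OrderIso.symm_apply_apply] at this
    have h2 : ((n : ℕ) : Ordinal.{0}) = (r (Ordinal.ToType.mk ⟨(n : Ordinal), hlt⟩) : ℕ) := this
    exact_mod_cast h2.symm
  have hc : ProperChain F (fun i => G (r i)) := by
    refine ⟨fun i => hG.clone _, fun i => hG.sub _, fun i => hG.proper _,
      fun i j hij => hG.mono _ _ (hrmono i j hij), fun n f hf => ?_⟩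
    obtain ⟨m, hm⟩ := hG.union n f hf
    obtain ⟨i, hi⟩ := hrsurj m
    exact ⟨i, by rw [hi]; exact hm⟩
  have : cf F ≤ ℵ₀ := csInf_le' ⟨_, hc⟩
  exact absurd h (not_lt.2 this)

/-- A clone of uncountable cofinality is generated by its part of some arity. -/
lemma exists_part {A : Type} {F : Fam A} (hF : IsClone F) (h : ℵ₀ < cf F) :
    ∃ k, Generates (part F k) F := by
  by_contra hcon
  push Not at hcon
  have key : ∀ k, Sub (gen (part F k)) F := fun k => gen_sub hF fun n f hf => hf.1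
  refine no_nat_chain h (fun k => gen (part F k)) ⟨fun k => isClone_gen _, key, ?_, ?_, ?_⟩
  · intro k hk
    exact hcon k (generates_of_sub_gen hF (fun n f hf => hf.1) hk)
  · intro k l hkl
    refine gen_sub (isClone_gen _) ?_
    rintro n f ⟨hf, rfl⟩
    -- pad with dummy variables
    have h1 : cmp f (fun i : Fin (n + 1) => (proj (Fin.castLE (by omega) i) : Op A l)) ∈
        part F l l := ⟨hF.cmp_mem _ _ _ _ hf fun i => hF.proj_mem _ _, rfl⟩
    have h2 := (isClone_gen (part F l)).cmp_mem _ n _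
      (fun j : Fin (l + 1) => if h : j.1 < n + 1 then (proj ⟨j.1, h⟩ : Op A n) else proj 0)
      (sub_gen _ _ h1) (by
        intro j
        beta_reduce
        split_ifs
        · exact (isClone_gen _).proj_mem _ _
        · exact (isClone_gen _).proj_mem _ _)
    convert h2 using 1
    funext x
    simp only [cmp]
    congr 1
    funext i
    have : ∀ j : Fin (l + 1), j.1 = i.1 →
        (if h : j.1 < n + 1 then (proj ⟨j.1, h⟩ : Op A n) else proj 0) = proj i := by
      intro j hj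
      rw [dif_pos (by rw [hj]; exact i.2)]
      congr 1
      exact Fin.ext hj
    change x i = (if h : (Fin.castLE _ i : Fin (l + 1)).1 < n + 1 then
      (proj ⟨(Fin.castLE _ i : Fin (l + 1)).1, h⟩ : Op A n) else proj 0) x
    rw [this _ rfl]
    rfl
  · intro n f hf
    exact ⟨n, sub_gen _ _ ⟨hf, rfl⟩⟩

lemma not_finGen_le : ¬ FinGen (Pol leRel) := by
  intro hfg
  obtain ⟨f, hf⟩ := (countable_of_finGen hfg 0).exists_eq_range
    ⟨_, (isClone_Pol _).proj_mem 0 0⟩
  classical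
  let h : ℕ → ℚ := fun n => if f n (fun _ => (n : ℚ)) = 2 * n then 2 * n + 1 else 2 * n
  have h1 : ∀ n : ℕ, 2 * (n : ℚ) ≤ h n ∧ h n ≤ 2 * n + 1 := by
    intro n
    simp only [h]
    split_ifs <;> constructor <;> linarith
  have hmono : ∀ n m, n ≤ m → h n ≤ h m := by
    intro n m hnm
    rcases hnm.lt_or_eq with h' | rfl
    · have e : (n : ℚ) + 1 ≤ m := by exact_mod_cast h'
      have := (h1 n).2
      have := (h1 m).1
      linarith
    · exact le_rfl
  have h2 : un (fun x : ℚ => h ⌊x⌋₊) ∈ Pol leRel 0 := by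
    intro _ x y hxy
    exact hmono _ _ (Nat.floor_mono (hxy 0))
  rw [hf] at h2
  obtain ⟨n, hn⟩ := h2
  have h3 : f n (fun _ => (n : ℚ)) = h n := by rw [hn]; simp [un]
  simp only [h] at h3
  by_cases h4 : f n (fun _ => (n : ℚ)) = 2 * n
  · rw [if_pos h4] at h3
    linarith
  · rw [if_neg h4] at h3
    exact h4 h3

/-- `cf (Pol (ℚ, ≤)) > ℵ₀` if and only if `Pol (ℚ, ≤)` is generated by its part of some arity. -/
theorem cf_le_iff : ℵ₀ < cf (Pol leRel) ↔ ∃ k, Generates (part (Pol leRel) k) (Pol leRel) := by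
  constructor
  · exact exists_part (isClone_Pol _)
  rintro ⟨k, hk⟩
  refine aleph0_lt_cf (isClone_Pol _) not_finGen_le ?_
  intro ι _ _ G hG
  have hι : Nonempty ι := by
    obtain ⟨i, -⟩ := hG.union 0 (proj 0) ((isClone_Pol _).proj_mem 0 0)
    exact ⟨i⟩
  obtain ⟨e, he⟩ := exists_surjective_nat ι
  have h1 : ∀ i, ∃ f : Op ℚ k, f ∈ Pol leRel k ∧ f ∉ G i k := by
    intro i
    by_contra hcon
    push Not at hcon
    refine hG.proper i (hk.2.2 _ (hG.clone i) ?_)
    rintro n f ⟨hf, rfl⟩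
    exact hcon f hf
  choose f hf hf' using fun n => h1 (e n)
  obtain ⟨i1, hi1⟩ := hG.union _ _ (encode_mem f hf)
  obtain ⟨i2, hi2⟩ := hG.union 0 _ cst_mem
  obtain ⟨i3, hi3⟩ := hG.union 0 _ suc_mem
  obtain ⟨i4, hi4⟩ := hG.union 0 _ prd_mem
  set i := max (max i1 i2) (max i3 i4) with hi
  have j1 := hG.mono i1 i ((le_max_left _ _).trans (le_max_left _ _)) _ hi1
  have j2 := hG.mono i2 i ((le_max_right _ _).trans (le_max_left _ _)) 0 hi2
  have j3 := hG.mono i3 i ((le_max_left _ _).trans (le_max_right _ _)) 0 hi3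
  have j4 := hG.mono i4 i ((le_max_right _ _).trans (le_max_right _ _)) 0 hi4
  obtain ⟨n, hn⟩ := he i
  apply hf' n
  rw [hn]
  refine lvl_subset_of_clone (hG.clone i) ?_ k _ (mem_lvl_encList f n)
  intro m g hg
  change (⟨m, g⟩ : Σ n, Op ℚ n) ∈ encList f at hg
  simp only [encList, List.mem_cons, List.not_mem_nil, or_false] at hg
  rcases hg with h | h | h | h
  · cases h; exact j1
  · cases h; exact j2
  · cases h; exact j3
  · cases h; exact j4

end Pool.Agent.R794.UQ
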