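import Mathlib

/-! # Clones, term depth, the Bergman property, polymorphisms, rational Urysohn spaces -/

namespace Pool.Agent.R794.UQ

/-- `Op A n` is the set of all operations on `A` of arity `n + 1` (so every arity is at least one). -/
abbrev Op (A : Type*) (n : ℕ) := (Fin (n + 1) → A) → A

/-- The `i`-th projection of arity `n + 1`. -/
def proj {A : Type*} {n : ℕ} (i : Fin (n + 1)) : Op A n := fun x => x i

/-- The composition `f ∘ ⟨g_0, …, g_n⟩`, that is `x ↦ f (g_0 x, …, g_n x)`. -/
def cmp {A : Type*} {n m : ℕ} (f : Op A n) (g : Fin (n + 1) → Op A m) : Op A m :=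
  fun x => f (fun i => g i x)

/-- A family of finitary operations on `A`, sorted by arity. -/
abbrev Fam (A : Type*) := ∀ n : ℕ, Set (Op A n)

/-- A clone: it contains all projections and is closed under composition. -/
structure IsClone {A : Type*} (F : Fam A) : Prop where
  proj_mem : ∀ (n : ℕ) (i : Fin (n + 1)), (proj i : Op A n) ∈ F n
  cmp_mem : ∀ (n m : ℕ) (f : Op A n) (g : Fin (n + 1) → Op A m),
    f ∈ F n → (∀ i, g i ∈ F m) → cmp f g ∈ F m

/-- `Sub H F`: every member of `H` belongs to `F`. -/
def Sub {A : Type*} (H F : Fam A) : Prop := ∀ n, H n ⊆ F n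

/-- `H ⊆ F` generates the clone `F`: `F` is the smallest clone containing `H`. -/
def Generates {A : Type*} (H F : Fam A) : Prop :=
  IsClone F ∧ Sub H F ∧ ∀ G : Fam A, IsClone G → Sub H G → Sub F G

/-- `lvl U k i` is `U^{[k+1,i]}`: the operations of arity `k + 1` given by terms over `U` of
depth at most `i`. -/
def lvl {A : Type*} (U : Fam A) (k : ℕ) : ℕ → Set (Op A k)
  | 0 => {f | ∃ i, f = proj i}
  | i + 1 => {h | ∃ (n : ℕ) (f : Op A n) (g : Fin (n + 1) → Op A k),
      f ∈ U n ∧ (∀ j, g j ∈ lvl U k i) ∧ h = cmp f g} ∪ lvl U k i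

/-- The Bergman property of a clone `F`: for every generating set `H` and every arity there is
a depth `n` such that all operations of that arity are terms over `H` of depth at most `n`. -/
def Bergman {A : Type*} (F : Fam A) : Prop :=
  ∀ H : Fam A, Generates H F → ∀ k : ℕ, ∃ n : ℕ, lvl H k n = F k

/-- The polymorphisms of a relational structure with binary relations `R j`. -/
def Pol {A ι : Type*} (R : ι → A → A → Prop) : Fam A := fun _ =>
  {f | ∀ (j : ι) x y, (∀ i, R j (x i) (y i)) → R j (f x) (f y)}

/-- `d` is a metric on `X` with rational values. -/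
structure IsRatMetric {X : Type*} (d : X → X → ℚ) : Prop where
  eq_zero : ∀ x y, d x y = 0 ↔ x = y
  symm : ∀ x y, d x y = d y x
  tri : ∀ x y z, d x z ≤ d x y + d y z

/-- `(X, d)` is the Fraisse limit of the class of all finite metric spaces with rational
distances lying in `S`: it is countable, its distances are rational and lie in `S`, every finite
metric space with rational distances in `S` embeds isometrically into it, and every isometry
between finite parts of `X` (given as an enumeration `p i ↦ q i`) extends to an isometry of `X`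
onto itself. -/
structure IsUrysohn (S : Set ℚ) {X : Type*} (d : X → X → ℚ) : Prop where
  metric : IsRatMetric d
  range : ∀ x y, d x y ∈ S
  countable : Countable X
  universal : ∀ (n : ℕ) (δ : Fin n → Fin n → ℚ), IsRatMetric δ → (∀ i j, δ i j ∈ S) →
    ∃ p : Fin n → X, ∀ i j, d (p i) (p j) = δ i j
  homogeneous : ∀ (n : ℕ) (p q : Fin n → X), (∀ i j, d (p i) (p j) = d (q i) (q j)) →
    ∃ φ : X ≃ X, (∀ x y, d (φ x) (φ y) = d x y) ∧ ∀ i, φ (p i) = q i

/-- `(X, d)` is the rational Urysohn space. -/
def IsUrysohnSpace {X : Type*} (d : X → X → ℚ) : Prop := IsUrysohn Set.univ d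

/-- `(X, d)` is the rational Urysohn sphere: the same with all distances `≤ 1`. -/
def IsUrysohnSphere {X : Type*} (d : X → X → ℚ) : Prop := IsUrysohn {r | r ≤ 1} d

/-- The relational structure of a rational metric space: the relations `d x y ≤ q` for the
rational numbers `q ≥ 0`. -/
def metricRel {X : Type*} (d : X → X → ℚ) : {q : ℚ // 0 ≤ q} → X → X → Prop :=
  fun q x y => d x y ≤ q

/-- The relational structure `(ℚ, ≤)`. -/
def leRel : Unit → ℚ → ℚ → Prop := fun _ x y => x ≤ y

end Pool.Agent.R794.UQ
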