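import Pool.Agent.R794.UQ.Ury

namespace Pool.Agent.R794.UQ

section
variable {S : Set ℚ} {T : ℚ → ℚ} {X : Type*} {d : X → X → ℚ}

/-- nonexpansive self-maps -/
def NonExp (d : X → X → ℚ) (g : X → X) : Prop := ∀ x y, d (g x) (g y) ≤ d x y

lemma NonExp.id (d : X → X → ℚ) : NonExp d (fun x => x) := fun _ _ => le_rfl

lemma NonExp.comp {f g : X → X} (hf : NonExp d f) (hg : NonExp d g) : NonExp d (f ∘ g) :=
  fun x y => (hf _ _).trans (hg x y)

lemma un_mem {g : X → X} (hg : NonExp d g) : un g ∈ Pol (metricRel d) 0 := by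
  intro q x y h
  exact (hg _ _).trans (h 0)

lemma nonExp_of_mem (hm : IsRatMetric d) {k : ℕ} {f : Op X k} (hf : f ∈ Pol (metricRel d) k)
    {ρ : Fin (k + 1) → X → X} (hρ : ∀ i, NonExp d (ρ i)) :
    NonExp d (fun x => f (fun i => ρ i x)) := by
  intro x y
  exact hf ⟨d x y, hm.nonneg x y⟩ _ _ (fun i => hρ i x y)

/-- the maximum metric -/
def dmax (d : X → X → ℚ) (k : ℕ) (x y : Fin (k + 1) → X) : ℚ :=
  Finset.univ.sup' ⟨0, Finset.mem_univ _⟩ (fun i => d (x i) (y i))

lemma le_dmax (d : X → X → ℚ) (k : ℕ) (x y : Fin (k + 1) → X) (i : Fin (k + 1)) :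
    d (x i) (y i) ≤ dmax d k x y :=
  Finset.le_sup' (fun i => d (x i) (y i)) (Finset.mem_univ i)

lemma dmax_le {k : ℕ} {x y : Fin (k + 1) → X} {q : ℚ} (h : ∀ i, d (x i) (y i) ≤ q) :
    dmax d k x y ≤ q :=
  Finset.sup'_le _ _ fun i _ => h i

lemma exists_dmax (d : X → X → ℚ) (k : ℕ) (x y : Fin (k + 1) → X) :
    ∃ i, dmax d k x y = d (x i) (y i) := by
  obtain ⟨i, -, e⟩ := Finset.exists_mem_eq_sup' (s := (Finset.univ : Finset (Fin (k + 1))))
    ⟨0, Finset.mem_univ _⟩ (fun i => d (x i) (y i))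
  exact ⟨i, e⟩

lemma dmax_metric (hm : IsRatMetric d) (k : ℕ) : IsRatMetric (dmax d k) where
  eq_zero x y := by
    constructor
    · intro h
      funext i
      have := le_dmax d k x y i
      exact (hm.eq_zero _ _).1 (le_antisymm (by linarith) (hm.nonneg _ _))
    · rintro rfl
      obtain ⟨i, e⟩ := exists_dmax d k x x
      rw [e, hm.self]
  symm x y := by
    apply le_antisymm
    · exact dmax_le fun i => by rw [hm.symm]; exact le_dmax d k y x i
    · exact dmax_le fun i => by rw [hm.symm]; exact le_dmax d k x y i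
  tri x y z := by
    refine dmax_le fun i => (hm.tri _ (y i) _).trans ?_
    exact add_le_add (le_dmax d k x y i) (le_dmax d k y z i)

/-- `X ^ (k + 1)` with the maximum metric is a nonexpansive retract of `X`. -/
lemma IsUrysohn.retract (hX : IsUrysohn S d) (c : Cap S T) (k : ℕ) :
    ∃ u ∈ Pol (metricRel d) k, ∃ ρ : Fin (k + 1) → X → X, (∀ i, NonExp d (ρ i)) ∧
      ∀ x i, ρ i (u x) = x i := by
  have hm := hX.metric
  have := hX.countable
  have := hX.nonempty c
  obtain ⟨v, hv, hs⟩ := hX.nice c (Y := Fin (k + 1) → X) (dmax_metric hm k) (by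
    intro x y
    obtain ⟨i, e⟩ := exists_dmax d k x y
    rw [e]; exact hX.range _ _)
  have h1 : ∀ i : Fin (k + 1), ∃ g : X → X, NonExp d g ∧ ∀ y, g (v y) = y i := fun i =>
    hX.extend c (dmax_metric hm k) hv hs (fun y => y i) (fun y y' => le_dmax d k y y' i)
  choose ρ hρ hρ' using h1
  refine ⟨v, ?_, ρ, hρ, fun x i => hρ' i x⟩
  intro q x y h
  change d (v x) (v y) ≤ q
  rw [hv]
  exact dmax_le h

lemma FinSupp.comp {Y Y' : Type*} (c : Cap S T) (hm : IsRatMetric d) {δ : Y → Y → ℚ}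
    (hδ : IsRatMetric δ)
    {w : Y → X} (hw : ∀ y y', d (w y) (w y') = δ y y') (hs : FinSupp T d δ w)
    {δ' : Y' → Y' → ℚ} (hδ' : IsRatMetric δ') {e : Y' → Y} (he : FinSupp T δ δ' e) :
    FinSupp T d δ' (fun y => w (e y)) := by
  classical
  intro x
  obtain ⟨B, hB⟩ := hs x
  choose B' hB' using he
  refine ⟨B.biUnion B', fun y => ?_⟩
  obtain ⟨b, hb, e1⟩ := hB (e y)
  obtain ⟨b', hb', e2⟩ := hB' b y
  refine ⟨b', Finset.mem_biUnion.2 ⟨b, hb, hb'⟩, ?_⟩
  have t1 : d x (w (e b')) ≤ d x (w b) + δ b (e b') := by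
    rw [← hw]; exact hm.tri _ _ _
  have t2 : T (d x (w (e b')) + δ' b' y) ≤ T (d x (w b) + (δ b (e b') + δ' b' y)) :=
    c.mono _ _ (by linarith)
  have t3 := c.absorb (d x (w b)) (δ b (e b') + δ' b' y) (hm.nonneg _ _)
    (add_nonneg (hδ.nonneg _ _) (hδ'.nonneg _ _))
  have t4 : T (d x (w b) + T (δ b (e b') + δ' b' y)) ≤ T (d x (w b) + δ b (e y)) :=
    c.mono _ _ (by linarith)
  exact t2.trans (t3.trans (t4.trans e1))

/-- Copies of `X` attached by their base points along a ray. -/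
def ray (T : ℚ → ℚ) (d : X → X → ℚ) (x0 : X) (p q : X × ℕ) : ℚ :=
  if p.2 = q.2 then d p.1 q.1 else T (d p.1 x0 + |(p.2 : ℚ) - q.2| + d x0 q.1)

lemma abs_ge_one {n m : ℕ} (h : n ≠ m) : (1 : ℚ) ≤ |(n : ℚ) - m| := by
  have h1 : (1 : ℤ) ≤ |(n : ℤ) - m| := Int.one_le_abs (by omega)
  have : ((1 : ℤ) : ℚ) ≤ ((|(n : ℤ) - m| : ℤ) : ℚ) := by exact_mod_cast h1
  push_cast at this
  exact this

lemma ray_metric (c : Cap S T) (hpos : ∀ x, 0 < x → 0 < T x) (hm : IsRatMetric d)
    (hS : ∀ x y, d x y ∈ S) (x0 : X) : IsRatMetric (ray T d x0) where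
  eq_zero p q := by
    unfold ray
    split_ifs with h
    · rw [hm.eq_zero]
      constructor
      · intro h'; exact Prod.ext h' h
      · rintro rfl; rfl
    · constructor
      · intro h'
        have := hpos (d p.1 x0 + |(p.2 : ℚ) - q.2| + d x0 q.1) (by
          have := abs_ge_one h
          have := hm.nonneg p.1 x0
          have := hm.nonneg x0 q.1
          linarith)
        linarith
      · rintro rfl; exact absurd rfl h
  symm p q := by
    unfold ray
    by_cases h : p.2 = q.2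
    · rw [if_pos h, if_pos h.symm, hm.symm]
    · rw [if_neg h, if_neg (Ne.symm h), hm.symm x0 q.1, hm.symm x0 p.1, abs_sub_comm]
      congr 1; ring
  tri p q r := by
    unfold ray
    have n1 := hm.nonneg p.1 x0
    have n2 := hm.nonneg x0 q.1
    have n3 := hm.nonneg q.1 x0
    have n4 := hm.nonneg x0 r.1
    have n5 := hm.nonneg p.1 q.1
    have n6 := hm.nonneg q.1 r.1
    have a1 := abs_nonneg ((p.2 : ℚ) - q.2)
    have a2 := abs_nonneg ((q.2 : ℚ) - r.2)
    by_cases h1 : p.2 = q.2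
    · by_cases h2 : q.2 = r.2
      · rw [if_pos h1, if_pos h2, if_pos (h1.trans h2)]
        exact hm.tri _ _ _
      · have h3 : p.2 ≠ r.2 := fun h => h2 (h1.symm.trans h)
        rw [if_pos h1, if_neg h2, if_neg h3, h1]
        have e1 : T (d p.1 x0 + |(q.2 : ℚ) - r.2| + d x0 r.1) ≤
            T (d p.1 q.1 + (d q.1 x0 + |(q.2 : ℚ) - r.2| + d x0 r.1)) :=
          c.mono _ _ (by have := hm.tri p.1 q.1 x0; linarith)
        have e2 := c.sub (d p.1 q.1) (d q.1 x0 + |(q.2 : ℚ) - r.2| + d x0 r.1) n5 (by linarith)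
        have e3 := c.fix _ (hS p.1 q.1)
        linarith
    · by_cases h2 : q.2 = r.2
      · have h3 : p.2 ≠ r.2 := fun h => h1 (h.trans h2.symm)
        rw [if_neg h1, if_pos h2, if_neg h3, ← h2]
        have e1 : T (d p.1 x0 + |(p.2 : ℚ) - q.2| + d x0 r.1) ≤
            T ((d p.1 x0 + |(p.2 : ℚ) - q.2| + d x0 q.1) + d q.1 r.1) :=
          c.mono _ _ (by have := hm.tri x0 q.1 r.1; linarith)
        have e2 := c.sub (d p.1 x0 + |(p.2 : ℚ) - q.2| + d x0 q.1) (d q.1 r.1) (by linarith) n6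
        have e3 := c.fix _ (hS q.1 r.1)
        linarith
      · have e2 := c.sub (d p.1 x0 + |(p.2 : ℚ) - q.2| + d x0 q.1)
          (d q.1 x0 + |(q.2 : ℚ) - r.2| + d x0 r.1) (by linarith) (by linarith)
        rw [if_neg h1, if_neg h2]
        split_ifs with h3
        · have e3 := c.fix _ (hS p.1 r.1)
          have e1 : T (d p.1 r.1) ≤ T ((d p.1 x0 + |(p.2 : ℚ) - q.2| + d x0 q.1) +
              (d q.1 x0 + |(q.2 : ℚ) - r.2| + d x0 r.1)) :=
            c.mono _ _ (by have := hm.tri p.1 x0 r.1; linarith)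
          linarith
        · have e1 : T (d p.1 x0 + |(p.2 : ℚ) - r.2| + d x0 r.1) ≤
              T ((d p.1 x0 + |(p.2 : ℚ) - q.2| + d x0 q.1) +
              (d q.1 x0 + |(q.2 : ℚ) - r.2| + d x0 r.1)) :=
            c.mono _ _ (by
              have := abs_sub_le (p.2 : ℚ) q.2 r.2
              linarith)
          linarith

lemma ray_mem (c : Cap S T) (hS : ∀ x y, d x y ∈ S) (x0 : X) (p q : X × ℕ) :
    ray T d x0 p q ∈ S := by
  unfold ray
  split_ifs
  · exact hS _ _
  · exact c.mem _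

/-- The support of a sparse set of copies. -/
lemma ray_supp (c : Cap S T) (hpos : ∀ x, 0 < x → 0 < T x) (hm : IsRatMetric d)
    (hS : ∀ x y, d x y ∈ S) (x0 : X) {a : ℕ → ℕ} (ha : StrictMono a) :
    FinSupp T (ray T d x0) (fun p q : X × ℕ => ray T d x0 (p.1, a p.2) (q.1, a q.2))
      (fun p : X × ℕ => (p.1, a p.2)) := by
  classical
  have hr := ray_metric c hpos hm hS x0
  rintro ⟨y, j⟩
  refine ⟨(Finset.range (j + 1)).image (fun i => (x0, i)) ∪
    (Finset.range (j + 1)).image (fun i => (y, i)), ?_⟩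
  rintro ⟨x, n⟩
  by_cases h : a n = j
  · refine ⟨(y, n), Finset.mem_union_right _ (Finset.mem_image.2 ⟨n, Finset.mem_range.2 ?_, rfl⟩),
      ?_⟩
    · have := ha.id_le n
      simp only [id] at this
      omega
    · simp only [h]
      rw [hr.self, zero_add]
      exact c.le _
  · have key : ∀ p q : X × ℕ, ray T d x0 p q ≤ d p.1 x0 + |(p.2 : ℚ) - q.2| + d x0 q.1 := by
      intro p q
      unfold ray
      split_ifs with h
      · have := hm.tri p.1 x0 q.1
        have := abs_nonneg ((p.2 : ℚ) - q.2)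
        linarith
      · exact c.le _
    have e0 : ray T d x0 (y, j) (x, a n) = T (d y x0 + |(j : ℚ) - a n| + d x0 x) := by
      unfold ray
      rw [if_neg (fun h' => h h'.symm)]
    by_cases hn : n ≤ j
    · refine ⟨(x0, n), Finset.mem_union_left _ (Finset.mem_image.2 ⟨n, Finset.mem_range.2
        (by omega), rfl⟩), ?_⟩
      simp only
      rw [e0]
      refine c.mono _ _ ?_
      have e1 := key (y, j) (x0, a n)
      have e2 := key (x0, a n) (x, a n)
      simp only [hm.self, sub_self, abs_zero] at e1 e2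
      linarith
    · refine ⟨(x0, j), Finset.mem_union_left _ (Finset.mem_image.2 ⟨j, Finset.mem_range.2
        (by omega), rfl⟩), ?_⟩
      simp only
      rw [e0]
      refine c.mono _ _ ?_
      have e1 := key (y, j) (x0, a j)
      have e2 := key (x0, a j) (x, a n)
      simp only [hm.self] at e1 e2
      have h1 : j ≤ a j := ha.id_le j
      have h2 : a j ≤ a n := ha.monotone (by omega)
      have h1' : (j : ℚ) ≤ a j := by exact_mod_cast h1
      have h2' : (a j : ℚ) ≤ a n := by exact_mod_cast h2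
      rw [abs_of_nonpos (by linarith)] at e1 e2
      rw [abs_of_nonpos (by linarith)]
      linarith

/-- Encoding of sequences of nonexpansive maps. -/
lemma IsUrysohn.encode (hX : IsUrysohn S d) (c : Cap S T) (hpos : ∀ x, 0 < x → 0 < T x) (x0 : X) :
    ∃ w0 τ : X → X, NonExp d w0 ∧ NonExp d τ ∧
      ∀ (g : ℕ → X → X), (∀ n, NonExp d (g n)) → ∀ a : ℕ → ℕ, StrictMono a →
        (∀ n m, n < m → d (g n x0) (g m x0) ≤ (a m : ℚ) - a n) →
        ∃ F : X → X, NonExp d F ∧ ∀ n x, F (τ^[a n] (w0 x)) = g n x := by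
  have hm := hX.metric
  have := hX.countable
  have hr := ray_metric c hpos hm hX.range x0
  haveI : Nonempty (X × ℕ) := ⟨(x0, 0)⟩
  obtain ⟨w, hw, hs⟩ := hX.nice c hr (ray_mem c hX.range x0)
  obtain ⟨τ, hτ, hτ'⟩ := hX.extend c hr hw hs (fun p => w (p.1, p.2 + 1)) (by
    intro p q
    rw [hw]
    unfold ray
    simp only [add_left_inj]
    split_ifs with h
    · exact le_rfl
    · apply le_of_eq
      congr 2
      push_cast
      congr 2
      ring)
  refine ⟨fun x => w (x, 0), τ, ?_, hτ, ?_⟩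
  · intro x y
    rw [hw]
    unfold ray
    simp
  intro g hg a ha hga
  have hτn : ∀ n x, τ^[n] (w (x, 0)) = w (x, n) := by
    intro n x
    induction n with
    | zero => rfl
    | succ n ih => rw [Function.iterate_succ_apply', ih, hτ']
  have hr' : IsRatMetric (fun p q : X × ℕ => ray T d x0 (p.1, a p.2) (q.1, a q.2)) := by
    constructor
    · intro p q
      rw [hr.eq_zero]
      constructor
      · intro h
        rw [Prod.mk.injEq] at h
        exact Prod.ext h.1 (ha.injective h.2)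
      · rintro rfl; rfl
    · intro p q; exact hr.symm _ _
    · intro p q r; exact hr.tri _ _ _
  have hs' := FinSupp.comp c hm hr hw hs hr' (ray_supp c hpos hm hX.range x0 ha)
  have hgd : ∀ n m, n ≠ m → d (g n x0) (g m x0) ≤ |(a n : ℚ) - a m| := by
    intro n m hnm
    rcases lt_or_gt_of_ne hnm with h | h
    · have := hga n m h
      rw [abs_sub_comm]
      exact this.trans (le_abs_self _)
    · have := hga m n h
      rw [hm.symm]
      exact this.trans (le_abs_self _)
  obtain ⟨F, hF, hF'⟩ := hX.extend c hr' (fun y y' => hw _ _) hs' (fun p => g p.2 p.1) (by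
    intro p q
    unfold ray
    simp only
    by_cases h : p.2 = q.2
    · rw [if_pos (by rw [h]), h]; exact hg _ _ _
    · rw [if_neg (fun h' => h (ha.injective h'))]
      have e1 := c.fix _ (hX.range (g p.2 p.1) (g q.2 q.1))
      rw [← e1]
      refine c.mono _ _ ?_
      have t1 := hm.tri (g p.2 p.1) (g p.2 x0) (g q.2 q.1)
      have t2 := hm.tri (g p.2 x0) (g q.2 x0) (g q.2 q.1)
      have t3 := hg p.2 p.1 x0
      have t4 := hg q.2 x0 q.1
      have t5 := hgd _ _ h
      linarith)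
  refine ⟨F, hF, fun n x => ?_⟩
  rw [hτn]
  exact hF' (x, n)

end

end Pool.Agent.R794.UQ
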