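import Pool.Agent.R794.UQ.Clone

namespace Pool.Agent.R794.UQ

/-- A truncation of sums of distances: the identity for unbounded spaces, `min 1` for the
sphere. -/
structure Cap (S : Set ℚ) (T : ℚ → ℚ) : Prop where
  mono : ∀ x y, x ≤ y → T x ≤ T y
  le : ∀ x, T x ≤ x
  mem : ∀ x, T x ∈ S
  fix : ∀ x, x ∈ S → T x = x
  sub : ∀ x y, 0 ≤ x → 0 ≤ y → T (x + y) ≤ T x + T y
  absorb : ∀ x y, 0 ≤ x → 0 ≤ y → T (x + y) ≤ T (x + T y)
  nonneg : ∀ x, 0 ≤ x → 0 ≤ T x

lemma cap_univ : Cap Set.univ (fun x => x) where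
  mono _ _ h := h
  le _ := le_rfl
  mem _ := trivial
  fix _ _ := rfl
  sub _ _ _ _ := le_rfl
  absorb _ _ _ _ := le_rfl
  nonneg _ h := h

lemma cap_sphere : Cap {r | r ≤ 1} (fun x => min 1 x) where
  mono _ _ h := min_le_min_left _ h
  le _ := min_le_right _ _
  mem x := show min 1 x ≤ 1 from min_le_left _ _
  fix _ h := min_eq_right h
  sub x y hx hy := by
    rcases le_total 1 x with h | h <;> rcases le_total 1 y with h' | h' <;>
      simp only [min_eq_left h, min_eq_right h, min_eq_left h', min_eq_right h'] <;>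
      rcases le_total 1 (x + y) with h'' | h'' <;>
      simp only [min_eq_left h'', min_eq_right h''] <;> linarith
  absorb x y hx hy := by
    rcases le_total 1 y with h' | h' <;>
      simp only [min_eq_left h', min_eq_right h'] <;> [skip; exact le_rfl]
    rw [min_eq_left (by linarith : (1 : ℚ) ≤ x + 1)]
    exact min_le_left _ _
  nonneg x h := le_min (by norm_num) h

lemma IsRatMetric.self {X : Type*} {d : X → X → ℚ} (h : IsRatMetric d) (x : X) : d x x = 0 :=
  (h.eq_zero x x).2 rfl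

lemma IsRatMetric.nonneg {X : Type*} {d : X → X → ℚ} (h : IsRatMetric d) (x y : X) :
    0 ≤ d x y := by
  have h1 := h.tri x y x
  have h2 := h.symm x y
  have h3 := h.self x
  linarith

lemma Cap.zero_mem {S : Set ℚ} {T : ℚ → ℚ} (c : Cap S T) : (0 : ℚ) ∈ S := by
  have h : T 0 = 0 := le_antisymm (c.le 0) (c.nonneg 0 le_rfl)
  rw [← h]; exact c.mem 0

section
variable {S : Set ℚ} {T : ℚ → ℚ} {X : Type*} {d : X → X → ℚ}

lemma IsUrysohn.nonempty (hX : IsUrysohn S d) (c : Cap S T) : Nonempty X := by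
  obtain ⟨p, -⟩ := hX.universal 1 (fun _ _ => 0)
    ⟨fun x y => by simp [Subsingleton.elim x y], fun _ _ => rfl, fun _ _ _ => by simp⟩
    (fun _ _ => c.zero_mem)
  exact ⟨p 0⟩

/-- The extension property. -/
lemma IsUrysohn.ext (hX : IsUrysohn S d) (c : Cap S T) (A : Finset X) (κ : X → ℚ)
    (hS : ∀ a ∈ A, κ a ∈ S) (h1 : ∀ a ∈ A, ∀ b ∈ A, κ a ≤ κ b + d a b)
    (h2 : ∀ a ∈ A, ∀ b ∈ A, d a b ≤ κ a + κ b) : ∃ z, ∀ a ∈ A, d z a = κ a := by
  have hm := hX.metric
  by_cases h0 : ∃ a ∈ A, κ a = 0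
  · obtain ⟨a, ha, h⟩ := h0
    refine ⟨a, fun b hb => ?_⟩
    have e1 := h2 a ha b hb
    have e2 := h1 b hb a ha
    rw [hm.symm b a] at e2
    linarith
  push Not at h0
  have hpos : ∀ a ∈ A, 0 < κ a := by
    intro a ha
    have e := h2 a ha a ha
    rw [hm.self] at e
    exact lt_of_le_of_ne (by linarith) (Ne.symm (h0 a ha))
  let e : Fin A.card ≃ A := A.equivFin.symm
  let δ : Fin (A.card + 1) → Fin (A.card + 1) → ℚ := fun i j =>
    Fin.cases (Fin.cases 0 (fun j => κ (e j)) j)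
      (fun i => Fin.cases (κ (e i)) (fun j => d (e i) (e j)) j) i
  have d00 : δ 0 0 = 0 := rfl
  have d0s : ∀ j, δ 0 (Fin.succ j) = κ (e j) := fun j => rfl
  have ds0 : ∀ j, δ (Fin.succ j) 0 = κ (e j) := fun j => rfl
  have dss : ∀ i j, δ (Fin.succ i) (Fin.succ j) = d (e i) (e j) := fun i j => rfl
  have hδ : IsRatMetric δ := by
    constructor
    · intro x y
      refine Fin.cases ?_ (fun i => ?_) x <;> refine Fin.cases ?_ (fun j => ?_) y
      · simp [d00]
      · rw [d0s]
        have := hpos _ (e j).2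
        constructor
        · intro h; linarith
        · intro h; exact absurd h.symm (Fin.succ_ne_zero _)
      · rw [ds0]
        have := hpos _ (e i).2
        constructor
        · intro h; linarith
        · intro h; exact absurd h (Fin.succ_ne_zero _)
      · rw [dss, hm.eq_zero]
        constructor
        · intro h
          rw [e.injective (Subtype.ext h)]
        · intro h
          rw [Fin.succ_injective _ h]
    · intro x y
      refine Fin.cases ?_ (fun i => ?_) x <;> refine Fin.cases ?_ (fun j => ?_) y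
      · rfl
      · rfl
      · rfl
      · exact hm.symm _ _
    · intro x y z
      refine Fin.cases ?_ (fun i => ?_) x <;> refine Fin.cases ?_ (fun j => ?_) y <;>
        refine Fin.cases ?_ (fun k => ?_) z
      · simp [d00]
      · simp [d00]
      · rw [d00, d0s, ds0]; have := hpos _ (e j).2; linarith
      · rw [d0s, d0s, dss]
        have := h1 _ (e k).2 _ (e j).2
        rw [hm.symm] at this; linarith
      · rw [ds0, d00]; linarith
      · rw [dss, ds0, d0s]; exact h2 _ (e i).2 _ (e k).2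
      · rw [ds0, dss, ds0]
        have := h1 _ (e i).2 _ (e j).2
        linarith
      · exact hm.tri _ _ _
  obtain ⟨p, hp⟩ := hX.universal _ δ hδ (by
    intro x y
    refine Fin.cases ?_ (fun i => ?_) x <;> refine Fin.cases ?_ (fun j => ?_) y
    · rw [d00]; exact c.zero_mem
    · rw [d0s]; exact hS _ (e j).2
    · rw [ds0]; exact hS _ (e i).2
    · rw [dss]; exact hX.range _ _)
  obtain ⟨φ, hφ, hφ'⟩ := hX.homogeneous _ (fun i => p (Fin.succ i)) (fun i => (e i : X)) (by
    intro i j; rw [hp, dss])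
  refine ⟨φ (p 0), fun a ha => ?_⟩
  have := hφ' (e.symm ⟨a, ha⟩)
  simp only [Equiv.apply_symm_apply] at this
  rw [← this, hφ, hp, d0s, Equiv.apply_symm_apply, this]

/-- The extension property, indexed form. -/
lemma IsUrysohn.ext' (hX : IsUrysohn S d) (c : Cap S T) {ι : Type*} (s : Finset ι) (a : ι → X)
    (κ : ι → ℚ) (hS : ∀ i ∈ s, κ i ∈ S) (h1 : ∀ i ∈ s, ∀ j ∈ s, κ i ≤ κ j + d (a i) (a j))
    (h2 : ∀ i ∈ s, ∀ j ∈ s, d (a i) (a j) ≤ κ i + κ j) : ∃ z, ∀ i ∈ s, d z (a i) = κ i := by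
  classical
  let κ' : X → ℚ := fun x => if h : ∃ i ∈ s, a i = x then κ h.choose else 0
  have hκ : ∀ i ∈ s, κ' (a i) = κ i := by
    intro i hi
    have h : ∃ j ∈ s, a j = a i := ⟨i, hi, rfl⟩
    have e : κ' (a i) = κ h.choose := dif_pos h
    obtain ⟨hj, hj'⟩ := h.choose_spec
    have e1 := h1 _ hj _ hi
    have e2 := h1 _ hi _ hj
    rw [hj', hX.metric.self] at e1 e2
    rw [e]; linarith
  obtain ⟨z, hz⟩ := hX.ext c (s.image a) κ' (by
      intro x hx
      obtain ⟨i, hi, rfl⟩ := Finset.mem_image.1 hx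
      rw [hκ i hi]; exact hS i hi)
    (by
      intro x hx y hy
      obtain ⟨i, hi, rfl⟩ := Finset.mem_image.1 hx
      obtain ⟨j, hj, rfl⟩ := Finset.mem_image.1 hy
      rw [hκ i hi, hκ j hj]; exact h1 i hi j hj)
    (by
      intro x hx y hy
      obtain ⟨i, hi, rfl⟩ := Finset.mem_image.1 hx
      obtain ⟨j, hj, rfl⟩ := Finset.mem_image.1 hy
      rw [hκ i hi, hκ j hj]; exact h2 i hi j hj)
  refine ⟨z, fun i hi => ?_⟩
  rw [hz _ (Finset.mem_image_of_mem a hi), hκ i hi]

/-- Finite hyperconvexity. -/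
lemma IsUrysohn.hyper (hX : IsUrysohn S d) (c : Cap S T) {ι : Type*} (s : Finset ι) (a : ι → X)
    (r : ι → ℚ) (h : ∀ i ∈ s, ∀ j ∈ s, d (a i) (a j) ≤ r i + r j) :
    ∃ z, ∀ i ∈ s, d z (a i) ≤ r i := by
  have hm := hX.metric
  rcases s.eq_empty_or_nonempty with rfl | hs
  · obtain ⟨x⟩ := hX.nonempty c
    exact ⟨x, by simp⟩
  have hr : ∀ i ∈ s, 0 ≤ r i := by
    intro i hi
    have := h i hi i hi
    rw [hm.self] at this; linarith
  let κ : ι → ℚ := fun i => T (s.inf' hs fun j => r j + d (a j) (a i))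
  have hκle : ∀ i, ∀ j ∈ s, κ i ≤ T (r j + d (a j) (a i)) := fun i j hj =>
    c.mono _ _ (Finset.inf'_le _ hj)
  have hκex : ∀ i, ∃ j ∈ s, κ i = T (r j + d (a j) (a i)) := by
    intro i
    obtain ⟨j, hj, e⟩ := Finset.exists_mem_eq_inf' hs fun j => r j + d (a j) (a i)
    exact ⟨j, hj, by simp only [κ]; rw [e]⟩
  obtain ⟨z, hz⟩ := hX.ext' c s a κ (fun i _ => c.mem _)
    (by
      intro i hi j hj
      obtain ⟨k, hk, e⟩ := hκex j
      have e1 := hκle i k hk
      have e2 : T (r k + d (a k) (a i)) ≤ T ((r k + d (a k) (a j)) + d (a j) (a i)) :=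
        c.mono _ _ (by have := hm.tri (a k) (a j) (a i); linarith)
      have e3 := c.sub (r k + d (a k) (a j)) (d (a j) (a i))
        (by have := hr k hk; have := hm.nonneg (a k) (a j); linarith) (hm.nonneg _ _)
      have e4 := c.fix _ (hX.range (a j) (a i))
      rw [hm.symm (a i) (a j)]
      linarith)
    (by
      intro i hi j hj
      obtain ⟨k, hk, e⟩ := hκex i
      obtain ⟨l, hl, e'⟩ := hκex j
      have e1 := c.fix _ (hX.range (a i) (a j))
      have e2 : T (d (a i) (a j)) ≤ T ((r k + d (a k) (a i)) + (r l + d (a l) (a j))) :=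
        c.mono _ _ (by
          have t1 := hm.tri (a i) (a k) (a j)
          have t2 := hm.tri (a k) (a l) (a j)
          have t3 := h k hk l hl
          rw [hm.symm (a i) (a k)] at t1
          linarith)
      have e3 := c.sub (r k + d (a k) (a i)) (r l + d (a l) (a j))
        (by have := hr k hk; have := hm.nonneg (a k) (a i); linarith)
        (by have := hr l hl; have := hm.nonneg (a l) (a j); linarith)
      linarith)
  refine ⟨z, fun i hi => ?_⟩
  rw [hz i hi]
  refine (hκle i i hi).trans ?_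
  rw [hm.self, add_zero]
  exact c.le _

/-- `v : Y → X` is finitely supported. -/
def FinSupp {Y : Type*} (T : ℚ → ℚ) (d : X → X → ℚ) (δ : Y → Y → ℚ) (v : Y → X) : Prop :=
  ∀ x, ∃ B : Finset Y, ∀ y, ∃ b ∈ B, T (d x (v b) + δ b y) ≤ d x (v y)

/-- Nonexpansive maps defined on the image of a finitely supported isometric embedding
extend. -/
lemma IsUrysohn.extend (hX : IsUrysohn S d) (c : Cap S T) {Y : Type*} {δ : Y → Y → ℚ}
    (hδ : IsRatMetric δ) {v : Y → X} (hv : ∀ y y', d (v y) (v y') = δ y y')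
    (hs : FinSupp T d δ v) (h : Y → X) (hh : ∀ y y', d (h y) (h y') ≤ δ y y') :
    ∃ g : X → X, (∀ x x', d (g x) (g x') ≤ d x x') ∧ ∀ y, g (v y) = h y := by
  classical
  have hm := hX.metric
  have := hX.countable
  letI : Encodable X := Encodable.ofCountable X
  let P := {R : Finset (X × X) // (∀ p ∈ R, ∀ y, d p.2 (h y) ≤ d p.1 (v y)) ∧
    (∀ p ∈ R, ∀ q ∈ R, d p.2 q.2 ≤ d p.1 q.1)}
  have hcof : ∀ x : X, IsCofinal {R : P | ∃ z, (x, z) ∈ R.1} := by
    rintro x ⟨R, hR1, hR2⟩
    obtain ⟨B, hB⟩ := hs x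
    obtain ⟨z, hz⟩ := hX.hyper c (R.disjSum B)
      (Sum.elim (fun p => p.2) (fun b => h b)) (Sum.elim (fun p => d x p.1) (fun b => d x (v b)))
      (by
        rintro (p | b) hp (q | b') hq
        · simp only [Sum.elim_inl]
          rw [Finset.inl_mem_disjSum] at hp hq
          have := hR2 p hp q hq
          have t := hm.tri p.1 x q.1
          rw [hm.symm p.1 x] at t; linarith
        · simp only [Sum.elim_inl, Sum.elim_inr]
          rw [Finset.inl_mem_disjSum] at hp
          have := hR1 p hp b'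
          have t := hm.tri p.1 x (v b')
          rw [hm.symm p.1 x] at t; linarith
        · simp only [Sum.elim_inl, Sum.elim_inr]
          rw [Finset.inl_mem_disjSum] at hq
          have := hR1 q hq b
          have t := hm.tri q.1 x (v b)
          rw [hm.symm q.1 x] at t
          rw [hm.symm (h b) q.2]; linarith
        · simp only [Sum.elim_inr]
          have := hh b b'
          rw [← hv] at this
          have t := hm.tri (v b) x (v b')
          rw [hm.symm (v b) x] at t; linarith)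
    have hz1 : ∀ p ∈ R, d z p.2 ≤ d x p.1 := fun p hp =>
      hz (Sum.inl p) (Finset.inl_mem_disjSum.2 hp)
    have hz2 : ∀ b ∈ B, d z (h b) ≤ d x (v b) := fun b hb =>
      hz (Sum.inr b) (Finset.inr_mem_disjSum.2 hb)
    have hz3 : ∀ y, d z (h y) ≤ d x (v y) := by
      intro y
      obtain ⟨b, hb, e⟩ := hB y
      have e1 := c.fix _ (hX.range z (h y))
      have e2 : T (d z (h y)) ≤ T (d x (v b) + δ b y) := c.mono _ _ (by
        have t := hm.tri z (h b) (h y)
        have := hz2 b hb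
        have := hh b y
        linarith)
      linarith
    refine ⟨⟨insert (x, z) R, ?_, ?_⟩, ⟨z, Finset.mem_insert_self _ _⟩, ?_⟩
    · intro p hp y
      rcases Finset.mem_insert.1 hp with rfl | hp
      · exact hz3 y
      · exact hR1 p hp y
    · intro p hp q hq
      rcases Finset.mem_insert.1 hp with rfl | hp <;> rcases Finset.mem_insert.1 hq with rfl | hq
      · simp [hm.self]
      · exact hz1 q hq
      · rw [hm.symm p.2, hm.symm p.1]; exact hz1 p hp
      · exact hR2 p hp q hq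
    · exact Finset.subset_insert _ _
  let 𝒟 : X → Order.Cofinal P := fun x => ⟨{R : P | ∃ z, (x, z) ∈ R.1}, hcof x⟩
  let p0 : P := ⟨∅, by simp, by simp⟩
  let I := Order.idealOfCofinals p0 𝒟
  have hI : ∀ x, ∃ z, ∃ R ∈ I, (x, z) ∈ R.1 := by
    intro x
    obtain ⟨R, ⟨z, hz⟩, hR⟩ := Order.cofinal_meets_idealOfCofinals p0 𝒟 x
    exact ⟨z, R, hR, hz⟩
  choose g Rg hg hg' using hI
  refine ⟨g, fun x x' => ?_, fun y => ?_⟩
  · obtain ⟨R, hR, h1, h2⟩ := I.directed _ (hg x) _ (hg x')
    exact R.2.2 _ (h1 (hg' x)) _ (h2 (hg' x'))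
  · have := (Rg (v y)).2.1 _ (hg' (v y)) y
    simp only [hm.self] at this
    exact (hm.eq_zero _ _).1 (le_antisymm this (hm.nonneg _ _))

/-- Every countable rational metric space has a finitely supported isometric embedding. -/
lemma IsUrysohn.nice (hX : IsUrysohn S d) (c : Cap S T) {Y : Type*} [Countable Y] [Nonempty Y]
    {δ : Y → Y → ℚ} (hδ : IsRatMetric δ) (hδS : ∀ y y', δ y y' ∈ S) :
    ∃ v : Y → X, (∀ y y', d (v y) (v y') = δ y y') ∧ FinSupp T d δ v := by
  classical
  have hm := hX.metric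
  have := hX.countable
  letI : Encodable (X ⊕ Y) := Encodable.ofCountable _
  let P := {R : Finset (X × (Y → ℚ)) // R.Nonempty ∧
    (∀ p ∈ R, ∀ y, p.2 y ∈ S) ∧
    (∀ p ∈ R, ∀ y y', p.2 y ≤ p.2 y' + δ y y') ∧
    (∀ p ∈ R, ∀ y y', δ y y' ≤ p.2 y + p.2 y') ∧
    (∀ p ∈ R, ∀ q ∈ R, ∀ y, p.2 y ≤ q.2 y + d p.1 q.1) ∧
    (∀ p ∈ R, ∀ q ∈ R, ∀ y, d p.1 q.1 ≤ p.2 y + q.2 y) ∧
    (∀ p ∈ R, ∃ B : Finset Y, ∀ y, ∃ b ∈ B, T (p.2 b + δ b y) ≤ p.2 y)}
  have nn : ∀ R : P, ∀ p ∈ R.1, ∀ y, 0 ≤ p.2 y := by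
    intro R p hp y
    have := R.2.2.2.2.1 p hp y y
    rw [hδ.self] at this; linarith
  have hcofX : ∀ x : X, IsCofinal {R : P | ∃ p ∈ R.1, p.1 = x} := by
    intro x R
    obtain ⟨hne, h0, h1, h1', h2, h2', h3⟩ := R.2
    let ψ : Y → ℚ := fun y => T (R.1.inf' hne fun p => d x p.1 + p.2 y)
    have hle : ∀ y, ∀ p ∈ R.1, ψ y ≤ T (d x p.1 + p.2 y) := fun y p hp =>
      c.mono _ _ (Finset.inf'_le _ hp)
    have hex : ∀ y, ∃ p ∈ R.1, ψ y = T (d x p.1 + p.2 y) := by
      intro y
      obtain ⟨p, hp, e⟩ := Finset.exists_mem_eq_inf' hne fun p : X × (Y → ℚ) => d x p.1 + p.2 y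
      exact ⟨p, hp, by simp only [ψ]; rw [e]⟩
    have nn' : ∀ p ∈ R.1, ∀ y, 0 ≤ d x p.1 + p.2 y := fun p hp y =>
      add_nonneg (hm.nonneg _ _) (nn R p hp y)
    have a1 : ∀ y y', ψ y ≤ ψ y' + δ y y' := by
      intro y y'
      obtain ⟨p, hp, e⟩ := hex y'
      have e1 := hle y p hp
      have e2 : T (d x p.1 + p.2 y) ≤ T ((d x p.1 + p.2 y') + δ y y') :=
        c.mono _ _ (by have := h1 p hp y y'; linarith)
      have e3 := c.sub _ _ (nn' p hp y') (hδ.nonneg y y')
      have e4 := c.fix _ (hδS y y')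
      linarith
    have a1' : ∀ y y', δ y y' ≤ ψ y + ψ y' := by
      intro y y'
      obtain ⟨p, hp, e⟩ := hex y
      obtain ⟨q, hq, e'⟩ := hex y'
      have e1 := c.fix _ (hδS y y')
      have e2 : T (δ y y') ≤ T ((d x p.1 + p.2 y) + (d x q.1 + q.2 y')) :=
        c.mono _ _ (by
          have t1 := h1' p hp y y'
          have t2 := h2 p hp q hq y'
          have t3 := hm.tri p.1 x q.1
          rw [hm.symm p.1 x] at t3
          linarith)
      have e3 := c.sub _ _ (nn' p hp y) (nn' q hq y')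
      linarith
    have a2 : ∀ q ∈ R.1, ∀ y, ψ y ≤ q.2 y + d x q.1 := by
      intro q hq y
      have e1 := hle y q hq
      have e2 := c.le (d x q.1 + q.2 y)
      linarith
    have a2r : ∀ q ∈ R.1, ∀ y, q.2 y ≤ ψ y + d q.1 x := by
      intro q hq y
      obtain ⟨p, hp, e⟩ := hex y
      have e1 := c.fix _ (h0 q hq y)
      have e2 : T (q.2 y) ≤ T ((d x p.1 + p.2 y) + d q.1 x) :=
        c.mono _ _ (by
          have t2 := h2 q hq p hp y
          have t3 := hm.tri q.1 x p.1
          linarith)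
      have e3 := c.sub _ _ (nn' p hp y) (hm.nonneg q.1 x)
      have e4 := c.fix _ (hX.range q.1 x)
      linarith
    have a2' : ∀ q ∈ R.1, ∀ y, d x q.1 ≤ ψ y + q.2 y := by
      intro q hq y
      obtain ⟨p, hp, e⟩ := hex y
      have e1 := c.fix _ (hX.range x q.1)
      have e2 : T (d x q.1) ≤ T ((d x p.1 + p.2 y) + q.2 y) :=
        c.mono _ _ (by
          have t2 := h2' p hp q hq y
          have t3 := hm.tri x p.1 q.1
          linarith)
      have e3 := c.sub _ _ (nn' p hp y) (nn R q hq y)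
      have e4 := c.fix _ (h0 q hq y)
      linarith
    have a3 : ∃ B : Finset Y, ∀ y, ∃ b ∈ B, T (ψ b + δ b y) ≤ ψ y := by
      choose! B hB using h3
      refine ⟨R.1.biUnion B, fun y => ?_⟩
      obtain ⟨p, hp, e⟩ := hex y
      obtain ⟨b, hb, hb'⟩ := hB p hp y
      refine ⟨b, Finset.mem_biUnion.2 ⟨p, hp, hb⟩, ?_⟩
      have e1 : ψ b ≤ d x p.1 + p.2 b := (hle b p hp).trans (c.le _)
      have e2 : T (ψ b + δ b y) ≤ T (d x p.1 + (p.2 b + δ b y)) := c.mono _ _ (by linarith)
      have e3 := c.absorb (d x p.1) (p.2 b + δ b y) (hm.nonneg _ _)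
        (add_nonneg (nn R p hp b) (hδ.nonneg _ _))
      have e4 : T (d x p.1 + T (p.2 b + δ b y)) ≤ T (d x p.1 + p.2 y) :=
        c.mono _ _ (by linarith)
      rw [e]
      exact e2.trans (e3.trans e4)
    refine ⟨⟨insert (x, ψ) R.1, ⟨_, Finset.mem_insert_self _ _⟩, ?_, ?_, ?_, ?_, ?_, ?_⟩,
      ⟨(x, ψ), Finset.mem_insert_self _ _, rfl⟩, Finset.subset_insert _ _⟩
    · intro p hp y
      rcases Finset.mem_insert.1 hp with rfl | hp
      · exact c.mem _
      · exact h0 p hp y
    · intro p hp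
      rcases Finset.mem_insert.1 hp with rfl | hp
      · exact a1
      · exact h1 p hp
    · intro p hp
      rcases Finset.mem_insert.1 hp with rfl | hp
      · exact a1'
      · exact h1' p hp
    · intro p hp q hq y
      rcases Finset.mem_insert.1 hp with rfl | hp <;> rcases Finset.mem_insert.1 hq with rfl | hq
      · simp [hm.self]
      · exact a2 q hq y
      · exact a2r p hp y
      · exact h2 p hp q hq y
    · intro p hp q hq y
      rcases Finset.mem_insert.1 hp with rfl | hp <;> rcases Finset.mem_insert.1 hq with rfl | hq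
      · simp only [hm.self]
        have := c.nonneg _ (le_trans (nn' _ hne.choose_spec y) le_rfl)
        have h4 : 0 ≤ ψ y := by
          obtain ⟨p, hp, e⟩ := hex y
          rw [e]; exact c.nonneg _ (nn' p hp y)
        linarith
      · exact a2' q hq y
      · rw [hm.symm]
        have := a2' p hp y
        simp only at this ⊢
        linarith
      · exact h2' p hp q hq y
    · intro p hp
      rcases Finset.mem_insert.1 hp with rfl | hp
      · exact a3
      · exact h3 p hp
  have hcofY : ∀ y : Y, IsCofinal {R : P | ∃ p ∈ R.1, p.2 y = 0} := by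
    intro y R
    obtain ⟨hne, h0, h1, h1', h2, h2', h3⟩ := R.2
    obtain ⟨z, hz⟩ := hX.ext' c R.1 (fun p => p.1) (fun p => p.2 y) (fun p hp => h0 p hp y)
      (fun p hp q hq => h2 p hp q hq y) (fun p hp q hq => h2' p hp q hq y)
    refine ⟨⟨insert (z, fun y' => δ y y') R.1, ⟨_, Finset.mem_insert_self _ _⟩,
      ?_, ?_, ?_, ?_, ?_, ?_⟩,
      ⟨(z, fun y' => δ y y'), Finset.mem_insert_self _ _, hδ.self y⟩, Finset.subset_insert _ _⟩
    · intro p hp y'
      rcases Finset.mem_insert.1 hp with rfl | hp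
      · exact hδS _ _
      · exact h0 p hp y'
    · intro p hp
      rcases Finset.mem_insert.1 hp with rfl | hp
      · intro y1 y2
        have := hδ.tri y y2 y1
        rw [hδ.symm y1 y2]; exact this
      · exact h1 p hp
    · intro p hp
      rcases Finset.mem_insert.1 hp with rfl | hp
      · intro y1 y2
        have := hδ.tri y1 y y2
        rw [hδ.symm y1 y] at this; exact this
      · exact h1' p hp
    · intro p hp q hq y'
      rcases Finset.mem_insert.1 hp with rfl | hp <;> rcases Finset.mem_insert.1 hq with rfl | hq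
      · simp [hm.self]
      · simp only
        rw [hz q hq]
        have := h1' q hq y y'
        linarith
      · simp only
        rw [hm.symm, hz p hp]
        have := h1 p hp y' y
        rw [hδ.symm] at this
        linarith
      · exact h2 p hp q hq y'
    · intro p hp q hq y'
      rcases Finset.mem_insert.1 hp with rfl | hp <;> rcases Finset.mem_insert.1 hq with rfl | hq
      · simp only [hm.self]
        have := hδ.nonneg y y'
        linarith
      · simp only
        rw [hz q hq]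
        have := h1 q hq y y'
        linarith
      · simp only
        rw [hm.symm, hz p hp]
        have := h1 p hp y y'
        linarith
      · exact h2' p hp q hq y'
    · intro p hp
      rcases Finset.mem_insert.1 hp with rfl | hp
      · refine ⟨{y}, fun y' => ⟨y, Finset.mem_singleton_self y, ?_⟩⟩
        simp only [hδ.self, zero_add]
        exact c.le _
      · exact h3 p hp
  let 𝒟 : X ⊕ Y → Order.Cofinal P := Sum.elim
    (fun x => ⟨{R : P | ∃ p ∈ R.1, p.1 = x}, hcofX x⟩)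
    (fun y => ⟨{R : P | ∃ p ∈ R.1, p.2 y = 0}, hcofY y⟩)
  obtain ⟨x0⟩ := hX.nonempty c
  obtain ⟨y0⟩ := ‹Nonempty Y›
  let p0 : P := ⟨{(x0, fun y => δ y0 y)}, Finset.singleton_nonempty _, by
    simp only [Finset.mem_singleton, forall_eq]
    refine ⟨fun y => hδS _ _, ?_, ?_, ?_, ?_, ?_⟩
    · intro y1 y2
      have := hδ.tri y0 y2 y1
      rw [hδ.symm y1 y2]; exact this
    · intro y1 y2
      have := hδ.tri y1 y0 y2
      rw [hδ.symm y1 y0] at this; exact this
    · intro y; simp [hm.self]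
    · intro y
      have := hδ.nonneg y0 y
      rw [hm.self]; linarith
    · refine ⟨{y0}, fun y' => ⟨y0, Finset.mem_singleton_self y0, ?_⟩⟩
      simp only [hδ.self, zero_add]
      exact c.le _⟩
  let I := Order.idealOfCofinals p0 𝒟
  have hIX : ∀ x, ∃ p : X × (Y → ℚ), ∃ R ∈ I, p ∈ R.1 ∧ p.1 = x := by
    intro x
    obtain ⟨R, ⟨p, hp, e⟩, hR⟩ := Order.cofinal_meets_idealOfCofinals p0 𝒟 (Sum.inl x)
    exact ⟨p, R, hR, hp, e⟩
  have hIY : ∀ y, ∃ p : X × (Y → ℚ), ∃ R ∈ I, p ∈ R.1 ∧ p.2 y = 0 := by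
    intro y
    obtain ⟨R, ⟨p, hp, e⟩, hR⟩ := Order.cofinal_meets_idealOfCofinals p0 𝒟 (Sum.inr y)
    exact ⟨p, R, hR, hp, e⟩
  choose pX RX hRX hpX hpX' using hIX
  choose pY RY hRY hpY hpY' using hIY
  have key : ∀ x y, d x (pY y).1 = (pX x).2 y := by
    intro x y
    obtain ⟨R, hR, s1, s2⟩ := I.directed _ (hRX x) _ (hRY y)
    have m1 : pX x ∈ R.1 := s1 (hpX x)
    have m2 : pY y ∈ R.1 := s2 (hpY y)
    have e1 := R.2.2.2.2.2.1 _ m1 _ m2 y
    have e2 := R.2.2.2.2.2.2.1 _ m1 _ m2 y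
    rw [hpY' y, hpX' x] at e1 e2
    linarith
  refine ⟨fun y => (pY y).1, ?_, ?_⟩
  · intro y y'
    obtain ⟨R, hR, s1, s2⟩ := I.directed _ (hRY y) _ (hRY y')
    have m1 : pY y ∈ R.1 := s1 (hpY y)
    have m2 : pY y' ∈ R.1 := s2 (hpY y')
    have e1 := R.2.2.2.2.2.1 _ m1 _ m2 y'
    have e2 := R.2.2.2.2.2.2.1 _ m1 _ m2 y'
    have e3 := R.2.2.2.1 _ m1 y' y
    have e4 := R.2.2.2.2.1 _ m1 y y'
    rw [hpY' y'] at e1 e2
    rw [hpY' y] at e3 e4
    rw [hδ.symm y' y] at e3
    simp only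
    linarith
  · intro x
    obtain ⟨B, hB⟩ := (RX x).2.2.2.2.2.2.2 _ (hpX x)
    refine ⟨B, fun y => ?_⟩
    obtain ⟨b, hb, e⟩ := hB y
    exact ⟨b, hb, by simp only [key]; exact e⟩

end

end Pool.Agent.R794.UQ
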